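import Mathlib
import Pool.Agent.H279R3.LogC

set_option autoImplicit false

namespace Pool.Agent.X330.QL

open Finset Classical Pool.Agent.H279R3.LogConv

/-! ### Exact one-vertex recursions (extracted from `good_deg0`, `good_deg1`, `good_deg2`) -/

theorem cnt_deg0 (H : Pat) (v : H.V) (hv : ∀ z, ¬ H.R v z) (G : PlaneGraph) :
    cnt H G = cnt (H.restrict (fun x => x ≠ v)) G * (G.m ^ 2 + G.m + 1) := by
  rw [cnt_eq_sum H v G, Finset.sum_const_nat (m := G.m ^ 2 + G.m + 1)]
  · rfl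
  · intro ψ _
    rw [← card_col G (H.κ v)]
    congr 1
    unfold ext1
    apply Finset.filter_congr
    intro y _
    constructor
    · exact fun h => h.1
    · exact fun h => ⟨h, fun u hu => absurd hu (hv _)⟩

theorem cnt_deg1 (H : Pat) (v u : H.V) (hvu : H.R v u) (hv : ∀ z, H.R v z → z = u)
    (G : PlaneGraph) :
    cnt H G = cnt (H.restrict (fun x => x ≠ v)) G * (G.m + 1) := by
  have huv : u ≠ v := by
    rintro rfl
    exact H.col_ne _ _ hvu rfl
  rw [cnt_eq_sum H v G, Finset.sum_const_nat (m := G.m + 1)]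
  · rfl
  · intro ψ hψ
    rw [mem_homs] at hψ
    rw [← card_nb G (ψ ⟨u, huv⟩)]
    congr 1
    ext y
    rw [ext1, mem_filter, mem_nb]
    constructor
    · intro h
      exact G.symm _ _ (h.2.2 ⟨u, huv⟩ hvu)
    · intro h
      refine ⟨mem_univ _, ?_, ?_⟩
      · apply col_of_adj h
        rw [hψ.1]
        exact (H.col_ne _ _ hvu).symm
      · rintro ⟨z, hz⟩ hvz
        have := hv z hvz
        subst this
        exact G.symm _ _ h

theorem cnt_deg2 (H : Pat) (v u w : H.V) (hvu : H.R v u) (hvw : H.R v w)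
    (hv : ∀ z, H.R v z → z = u ∨ z = w)
    (huv : u ≠ v) (hwv : w ≠ v) (G : PlaneGraph) :
    cnt H G = cnt (H.restrict (fun x => x ≠ v)) G
      + G.m * cntId (H.restrict (fun x => x ≠ v)) ⟨u, huv⟩ ⟨w, hwv⟩ G := by
  have hcard : ∀ (G : PlaneGraph) (ψ), ψ ∈ homs (H.restrict (fun x => x ≠ v)) G →
      (ext1 H v G ψ).card = if ψ ⟨u, huv⟩ = ψ ⟨w, hwv⟩ then G.m + 1 else 1 := by
    intro G ψ hψ
    rw [mem_homs] at hψ
    have hcu : G.col (ψ ⟨u, huv⟩) ≠ H.κ v := by
      rw [hψ.1]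
      exact (H.col_ne _ _ hvu).symm
    have hcw : G.col (ψ ⟨w, hwv⟩) ≠ H.κ v := by
      rw [hψ.1]
      exact (H.col_ne _ _ hvw).symm
    have hext : ∀ y, y ∈ ext1 H v G ψ ↔ G.Adj (ψ ⟨u, huv⟩) y ∧ G.Adj (ψ ⟨w, hwv⟩) y := by
      intro y
      rw [ext1, mem_filter]
      constructor
      · intro h
        exact ⟨G.symm _ _ (h.2.2 ⟨u, huv⟩ hvu), G.symm _ _ (h.2.2 ⟨w, hwv⟩ hvw)⟩
      · intro h
        refine ⟨mem_univ _, col_of_adj h.1 hcu, ?_⟩
        rintro ⟨z, hz⟩ hvz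
        rcases hv z hvz with h' | h'
        · subst h'; exact G.symm _ _ h.1
        · subst h'; exact G.symm _ _ h.2
    split_ifs with heq
    · rw [← card_nb G (ψ ⟨u, huv⟩)]
      congr 1
      ext y
      rw [hext, mem_nb, ← heq]
      simp
    · have hcol : G.col (ψ ⟨u, huv⟩) = G.col (ψ ⟨w, hwv⟩) := by
        revert hcu hcw
        cases G.col (ψ ⟨u, huv⟩) <;> cases G.col (ψ ⟨w, hwv⟩) <;> cases H.κ v <;> simp
      obtain ⟨z, hz1, hz2, hz3⟩ := G.common _ _ heq hcol
      rw [Finset.card_eq_one]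
      refine ⟨z, ?_⟩
      ext y
      rw [hext, mem_singleton]
      constructor
      · intro h; exact hz3 y h.1 h.2
      · rintro rfl; exact ⟨hz1, hz2⟩
  rw [cnt_eq_sum H v G, Finset.sum_congr rfl (hcard G)]
  have h3 : ∀ ψ : (H.restrict (fun x => x ≠ v)).V → G.W,
      (if ψ ⟨u, huv⟩ = ψ ⟨w, hwv⟩ then G.m + 1 else 1)
      = 1 + G.m * (if ψ ⟨u, huv⟩ = ψ ⟨w, hwv⟩ then 1 else 0) := by
    intro ψ
    split_ifs <;> omega
  simp only [h3]
  rw [Finset.sum_add_distrib, ← Finset.mul_sum, Finset.sum_const, smul_eq_mul, mul_one]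
  congr 1
  rw [cntId, Finset.card_filter]

/-- The upper bound in the case of minimum degree three (extracted from `good_deg3`). -/
theorem deg3_core (H : Pat) (hne : Nonempty H.V)
    (hdeg : ∀ v u w : H.V, ∃ z, H.R v z ∧ z ≠ u ∧ z ≠ w) :
    ∃ (c : H.V) (S : Finset H.V) (b : Bool), S.Nonempty ∧ c ∉ S ∧
      (∀ x ∈ S, ∀ y, H.R x y → y ∈ S ∨ y = c) ∧
      ∀ G, cnt H G ≤ (G.m + 1) ^ ((S.filter (fun v => H.κ v ≠ b)).card) *
        cnt (H.restrict (fun x => x ∉ S)) G + ∑ p ∈ prs H c S, cntId H p.1 p.2 G := by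
  let P : ℕ → Prop := fun n => ∃ (c : H.V) (S : Finset H.V), S.card = n ∧ S.Nonempty ∧ c ∉ S ∧
    ∀ x ∈ S, ∀ y, H.R x y → y ∈ S ∨ y = c
  have hP : ∃ n, P n := by
    obtain ⟨v⟩ := hne
    obtain ⟨z, -, hz, -⟩ := hdeg v v v
    refine ⟨(univ.erase v).card, v, univ.erase v, rfl, ⟨z, by simp [hz]⟩, by simp, ?_⟩
    intro x _ y _
    by_cases h : y = v
    · exact Or.inr h
    · exact Or.inl (by simp [h])
  obtain ⟨c, S, hSn, hS, hcS, hcl⟩ := Nat.find_spec hP
  have hmin : ∀ (z : H.V) (I : Finset H.V), I.Nonempty → I ⊆ S → I.card < S.card → z ∉ I →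
      ∃ x ∈ I, ∃ y, y ∉ I ∧ y ≠ z ∧ H.R x y := by
    intro z I h1 _ h3 h4
    by_contra hcon
    push Not at hcon
    refine Nat.find_min hP (m := I.card) (by omega) ⟨z, I, rfl, h1, h4, ?_⟩
    intro x hx y hxy
    by_contra hne
    push Not at hne
    exact hcon x hx y hne.1 hne.2 hxy
  have hconn : Conn H.R c S := by
    intro J hJ hJne
    by_cases hlt : J.card < S.card
    · obtain ⟨x, hx, y, hy, hyc, hxy⟩ := hmin c J hJne hJ hlt (fun h => hcS (hJ h))
      exact ⟨x, hx, y, hcl x (hJ hx) y hxy, hy, hxy⟩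
    · have hJS : J = S := eq_of_subset_of_card_le hJ (not_lt.1 hlt)
      subst hJS
      by_contra hcon
      push Not at hcon
      have hno : ∀ x ∈ J, ∀ y, H.R x y → y ∈ J := by
        intro x hx y hxy
        rcases hcl x hx y hxy with h | h
        · exact h
        · by_contra hy
          exact hcon x hx y (Or.inr h) hy hxy
      obtain ⟨d, hd⟩ := hJne
      by_cases hE : (J.erase d).Nonempty
      · obtain ⟨x, hx, y, hy, hyd, hxy⟩ := hmin d (J.erase d) hE (erase_subset _ _)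
          (card_erase_lt_of_mem hd) (notMem_erase _ _)
        exact hy (mem_erase.2 ⟨hyd, hno x (mem_erase.1 hx).2 y hxy⟩)
      · rw [not_nonempty_iff_eq_empty] at hE
        obtain ⟨z, hdz, hz, -⟩ := hdeg d d d
        have h1 : z ∈ J.erase d := mem_erase.2 ⟨hz, hno d hd z hdz⟩
        rw [hE] at h1
        exact absurd h1 (notMem_empty _)
  obtain ⟨p, q, hpq, h⟩ := two_orders H c S hcS hcl hmin hdeg S.card ∅ S rfl (empty_union _)
    (disjoint_empty_left _) hconn
  obtain ⟨p0, q0, hpq0, h0⟩ : ∃ p0 q0 : ℕ, p0 + q0 ≤ 0 ∧ ∀ (G : PlaneGraph) (x : G.W),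
      (X H G c x ∅).card ≤ 1 ∧ True := by
    refine ⟨0, 0, le_rfl, fun G x => ⟨?_, trivial⟩⟩
    rw [card_le_one]
    intro f hf g hg
    rw [mem_X] at hf hg
    funext v
    rw [hf.1 v (notMem_empty _), hg.1 v (notMem_empty _)]
  set r := min p q with hr
  have hX : ∀ (G : PlaneGraph) (x : G.W), (X H G c x S).card ≤ (G.m + 1) ^ r := by
    intro G x
    rcases le_total p q with hle | hle
    · rw [hr, min_eq_left hle]
      refine ((h G x).1).trans ?_
      calc (G.m + 1) ^ p * (X H G c x ∅).card ≤ (G.m + 1) ^ p * 1 :=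
            Nat.mul_le_mul_left _ (h0 G x).1
        _ = _ := mul_one _
    · rw [hr, min_eq_right hle]
      exact (h G x).2
  have hsum : (S.filter (fun v => H.κ v ≠ true)).card + (S.filter (fun v => H.κ v ≠ false)).card
      = S.card := by
    have h1 : S.filter (fun v => H.κ v ≠ false) = S.filter (fun v => ¬ (H.κ v ≠ true)) := by
      apply Finset.filter_congr
      intro v _
      cases H.κ v <;> simp
    rw [h1]
    exact Finset.card_filter_add_card_filter_not _
  obtain ⟨b, hb⟩ : ∃ b : Bool, r ≤ (S.filter (fun v => H.κ v ≠ b)).card := by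
    by_contra hcon
    push Not at hcon
    have h1 := hcon true
    have h2 := hcon false
    have h3 : r ≤ p := min_le_left _ _
    have h4 : r ≤ q := min_le_right _ _
    omega
  refine ⟨c, S, b, hS, hcS, hcl, fun G => ?_⟩
  have h1 := upper H c S hcS r G (hX G)
  have h2 : (G.m + 1) ^ r ≤ (G.m + 1) ^ ((S.filter (fun v => H.κ v ≠ b)).card) :=
    Nat.pow_le_pow_right (by omega) hb
  have h3 := Nat.mul_le_mul_right (cnt (H.restrict (fun x => x ∉ S)) G) h2
  exact h1.trans (Nat.add_le_add_right h3 _)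

end Pool.Agent.X330.QL
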