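import Mathlib
import Pool.Agent.X330.QL.ExpA

set_option autoImplicit false

namespace Pool.Agent.X330.QL

open Finset Classical Pool.Agent.H279R3.LogConv

/-- The edges of a pattern, oriented from the colour `true`. -/
noncomputable def edg (H : Pat) : Finset (H.V × H.V) :=
  univ.filter (fun p => H.κ p.1 = true ∧ H.R p.1 p.2)

theorem mem_edg {H : Pat} {p : H.V × H.V} : p ∈ edg H ↔ H.κ p.1 = true ∧ H.R p.1 p.2 := by
  simp [edg]

noncomputable def vim (H : Pat) {W : Type} (f : H.V → W) : ℕ := (univ.image f).card

noncomputable def eim (H : Pat) {W : Type} (f : H.V → W) : ℕ :=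
  ((edg H).image (fun p => (f p.1, f p.2))).card

def Compat (H : Pat) {W : Type} (f : H.V → W) : Prop := ∀ x y, f x = f y → H.κ x = H.κ y

/-- `k` is at most `2 |V(H')| - |E(H')|` for some collapse `H'`. -/
def Ach (H : Pat) (k : ℕ) : Prop :=
  ∃ (W : Type) (f : H.V → W), Compat H f ∧ k + eim H f ≤ 2 * vim H f

theorem univ_eq {X : Type} (i1 i2 : Fintype X) : @univ X i1 = @univ X i2 := by
  rw [Subsingleton.elim i1 i2]

/-- An auxiliary codomain: old values and new values. -/
inductive Cod (W Z : Type) : Type
  | old : W → Cod W Z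
  | new : Z → Cod W Z

theorem Cod.old_inj {W Z : Type} {a b : W} (h : (Cod.old a : Cod W Z) = Cod.old b) : a = b := by
  injection h

theorem Cod.new_inj {W Z : Type} {a b : Z} (h : (Cod.new a : Cod W Z) = Cod.new b) : a = b := by
  injection h

theorem Cod.ne1 {W Z : Type} {a : W} {b : Z} : (Cod.old a : Cod W Z) ≠ Cod.new b := by
  intro h; injection h

theorem Cod.ne2 {W Z : Type} {a : W} {b : Z} : (Cod.new b : Cod W Z) ≠ Cod.old a := by
  intro h; injection h

theorem ach_ext1 (H : Pat) (v : H.V) {W : Type} (f' : (H.restrict (fun x => x ≠ v)).V → W)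
    (hc : Compat (H.restrict (fun x => x ≠ v)) f') (T : Finset W)
    (hT : ∀ (z : H.V) (hz : z ≠ v), H.R v z → f' ⟨z, hz⟩ ∈ T) (k : ℕ)
    (hk : k + eim (H.restrict (fun x => x ≠ v)) f' + T.card ≤
      2 * vim (H.restrict (fun x => x ≠ v)) f' + 2) : Ach H k := by
  let f : H.V → Cod W Unit := fun x => if h : x ≠ v then Cod.old (f' ⟨x, h⟩) else Cod.new ()
  have hfv : f v = Cod.new () := by simp [f]
  have hfx : ∀ (x : H.V) (h : x ≠ v), f x = Cod.old (f' ⟨x, h⟩) := by
    intro x h; simp only [f]; rw [dif_pos h]
  refine ⟨Cod W Unit, f, ?_, ?_⟩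
  · intro x y hxy
    by_cases hx : x = v
    · by_cases hy : y = v
      · rw [hx, hy]
      · rw [hx, hfv, hfx y hy] at hxy
        exact absurd hxy Cod.ne2
    · by_cases hy : y = v
      · rw [hy, hfv, hfx x hx] at hxy
        exact absurd hxy Cod.ne1
      · rw [hfx x hx, hfx y hy] at hxy
        exact hc _ _ (Cod.old_inj hxy)
  · have h1 : vim H f = vim (H.restrict (fun x => x ≠ v)) f' + 1 := by
      unfold vim
      have : (univ.image f : Finset (Cod W Unit)) =
          insert (Cod.new ()) ((univ.image f').image Cod.old) := by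
        ext o
        rw [mem_insert, mem_image, mem_image]
        constructor
        · rintro ⟨x, -, rfl⟩
          by_cases hx : x = v
          · left; rw [hx, hfv]
          · right
            exact ⟨f' ⟨x, hx⟩, mem_image_of_mem _ (mem_univ _), (hfx x hx).symm⟩
        · rintro (rfl | ⟨w, hw, rfl⟩)
          · exact ⟨v, mem_univ _, hfv⟩
          · obtain ⟨x, -, rfl⟩ := mem_image.1 hw
            exact ⟨x.1, mem_univ _, hfx x.1 x.2⟩
      have hnot : (Cod.new () : Cod W Unit) ∉ (univ.image f').image Cod.old := by
        intro h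
        obtain ⟨w, -, hw⟩ := mem_image.1 h
        exact Cod.ne1 hw
      have e1 : ((univ.image f').image (Cod.old : W → Cod W Unit)).card = (univ.image f').card :=
        card_image_of_injective _ (fun a b h => Cod.old_inj h)
      rw [this, card_insert_of_notMem hnot, e1]
      exact congrArg (fun s => (Finset.image f' s).card + 1) (univ_eq _ _)
    have h2 : eim H f ≤ eim (H.restrict (fun x => x ≠ v)) f' + T.card := by
      unfold eim
      have hsub : (edg H).image (fun p => (f p.1, f p.2)) ⊆
          (((edg (H.restrict (fun x => x ≠ v))).image (fun p => (f' p.1, f' p.2))).image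
            (fun p => ((Cod.old p.1 : Cod W Unit), (Cod.old p.2 : Cod W Unit)))) ∪
          T.image (fun t => if H.κ v = true then ((Cod.new () : Cod W Unit), (Cod.old t : Cod W Unit)) else (Cod.old t, Cod.new ())) := by
        intro o ho
        obtain ⟨⟨x, y⟩, hp, rfl⟩ := mem_image.1 ho
        rw [mem_edg] at hp
        simp only at hp ⊢
        rw [mem_union]
        by_cases hx : x = v
        · right
          have hy : y ≠ v := by
            intro hy; rw [hx, hy] at hp; exact H.col_ne _ _ hp.2 rfl
          rw [mem_image]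
          refine ⟨f' ⟨y, hy⟩, hT y hy (hx ▸ hp.2), ?_⟩
          rw [if_pos (hx ▸ hp.1), hx, hfv, hfx y hy]
        · by_cases hy : y = v
          · right
            rw [mem_image]
            refine ⟨f' ⟨x, hx⟩, hT x hx (H.symm _ _ (hy ▸ hp.2)), ?_⟩
            have hκ : ¬ (H.κ v = true) := by
              intro h
              exact H.col_ne _ _ hp.2 (by rw [hp.1, hy, h])
            rw [if_neg hκ, hy, hfv, hfx x hx]
          · left
            rw [mem_image]
            refine ⟨(f' ⟨x, hx⟩, f' ⟨y, hy⟩), ?_, ?_⟩
            · rw [mem_image]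
              exact ⟨(⟨x, hx⟩, ⟨y, hy⟩), mem_edg.2 hp, rfl⟩
            · simp only
              rw [hfx x hx, hfx y hy]
      refine (card_le_card hsub).trans ((card_union_le _ _).trans ?_)
      exact Nat.add_le_add card_image_le card_image_le
    omega

theorem ach_ident' (H : Pat) (u w : H.V) (hne : u ≠ w) (hκ : H.κ u = H.κ w) {k : ℕ}
    (h : Ach (H.ident u w hne hκ) k) :
    ∃ (W : Type) (f : H.V → W), Compat H f ∧ k + eim H f ≤ 2 * vim H f ∧ f u = f w := by
  obtain ⟨W, f'', hc, hk⟩ := h
  have key : ∀ x, H.κ (proj u w hne x).1 = H.κ x := by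
    intro x
    unfold proj
    split_ifs with h
    · simp only; rw [h]; exact hκ
    · rfl
  refine ⟨W, fun x => f'' (proj u w hne x), ?_, ?_, ?_⟩
  · intro x y hxy
    have := hc _ _ hxy
    change H.κ (proj u w hne x).1 = H.κ (proj u w hne y).1 at this
    rwa [key, key] at this
  · have h1 : vim (H.ident u w hne hκ) f'' ≤ vim H (fun x => f'' (proj u w hne x)) := by
      unfold vim
      apply card_le_card
      intro o ho
      obtain ⟨a, -, rfl⟩ := mem_image.1 ho
      rw [mem_image]
      refine ⟨a.1, mem_univ _, ?_⟩
      have : proj u w hne a.1 = a := by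
        unfold proj
        rw [dif_neg a.2]
      rw [this]
    have h2 : eim H (fun x => f'' (proj u w hne x)) ≤ eim (H.ident u w hne hκ) f'' := by
      unfold eim
      apply card_le_card
      intro o ho
      obtain ⟨⟨x, y⟩, hp, rfl⟩ := mem_image.1 ho
      rw [mem_edg] at hp
      rw [mem_image]
      refine ⟨(proj u w hne x, proj u w hne y), mem_edg.2 ⟨?_, ?_⟩, rfl⟩
      · show H.κ (proj u w hne x).1 = true
        rw [key]; exact hp.1
      · exact ⟨x, y, rfl, rfl, hp.2⟩
    omega
  · simp only
    congr 1
    unfold proj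
    rw [dif_neg hne, dif_pos rfl]

theorem ach_ident (H : Pat) (u w : H.V) (hne : u ≠ w) (hκ : H.κ u = H.κ w) {k : ℕ}
    (h : Ach (H.ident u w hne hκ) k) : Ach H k := by
  obtain ⟨W, f, h1, h2, -⟩ := ach_ident' H u w hne hκ h
  exact ⟨W, f, h1, h2⟩

theorem ach_deg0 (H : Pat) (v : H.V) (hv : ∀ z, ¬ H.R v z) {k : ℕ}
    (h : Ach (H.restrict (fun x => x ≠ v)) k) : Ach H (k + 2) := by
  obtain ⟨W, f', hc, hk⟩ := h
  refine ach_ext1 H v f' hc ∅ (fun z _ hz => absurd hz (hv z)) _ ?_
  simp only [card_empty]
  omega

theorem ach_deg1 (H : Pat) (v u : H.V) (hv : ∀ z, H.R v z → z = u)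
    (huv : u ≠ v) {k : ℕ}
    (h : Ach (H.restrict (fun x => x ≠ v)) k) : Ach H (k + 1) := by
  obtain ⟨W, f', hc, hk⟩ := h
  refine ach_ext1 H v f' hc {f' ⟨u, huv⟩} (fun z hz h => ?_) _ ?_
  · have := hv z h
    subst this
    exact mem_singleton_self _
  · rw [card_singleton]
    omega

theorem ach_deg2 (H : Pat) (v u w : H.V) (hv : ∀ z, H.R v z → z = u ∨ z = w)
    (huv : u ≠ v) (hwv : w ≠ v) {k : ℕ}
    (h : Ach (H.restrict (fun x => x ≠ v)) k) : Ach H k := by
  obtain ⟨W, f', hc, hk⟩ := h
  refine ach_ext1 H v f' hc {f' ⟨u, huv⟩, f' ⟨w, hwv⟩} (fun z hz h => ?_) _ ?_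
  · rcases hv z h with h | h
    · subst h; simp
    · subst h; simp
  · have := card_le_two (a := f' ⟨u, huv⟩) (b := f' ⟨w, hwv⟩)
    omega

theorem ach_deg2' (H : Pat) (v u w : H.V) (hv : ∀ z, H.R v z → z = u ∨ z = w)
    (huv : u ≠ v) (hwv : w ≠ v)
    (hne : (⟨u, huv⟩ : (H.restrict (fun x => x ≠ v)).V) ≠ ⟨w, hwv⟩) (hκ : H.κ u = H.κ w) {k : ℕ}
    (h : Ach ((H.restrict (fun x => x ≠ v)).ident ⟨u, huv⟩ ⟨w, hwv⟩ hne hκ) k) :
    Ach H (k + 1) := by
  obtain ⟨W, f', hc, hk, heq⟩ := ach_ident' (H.restrict (fun x => x ≠ v)) _ _ hne hκ h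
  refine ach_ext1 H v f' hc {f' ⟨u, huv⟩} (fun z hz h => ?_) _ ?_
  · rcases hv z h with h | h
    · subst h; simp
    · subst h
      rw [mem_singleton]
      exact heq.symm
  · rw [card_singleton]
    omega

theorem ach_block (H : Pat) (c : H.V) (S : Finset H.V) (b : Bool) (hS : S.Nonempty)
    (hcS : c ∉ S) (hcl : ∀ x ∈ S, ∀ y, H.R x y → y ∈ S ∨ y = c)
    (hdeg : ∀ v : H.V, ∃ z, H.R v z) {k : ℕ}
    (h : Ach (H.restrict (fun x => x ∉ S)) k) :
    Ach H ((S.filter (fun v => H.κ v ≠ b)).card + k) := by
  obtain ⟨W, f', hc, hk⟩ := h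
  set T := S.filter (fun v => H.κ v ≠ b) with hT
  let y0 : Cod W (Option H.V) := if H.κ c = b then Cod.old ((f' ⟨c, hcS⟩)) else Cod.new none
  let f : H.V → Cod W (Option H.V) := fun x =>
    if h : x ∉ S then Cod.old ((f' ⟨x, h⟩)) else if H.κ x = b then y0 else Cod.new (some x)
  have hf1 : ∀ (x : H.V) (h : x ∉ S), f x = Cod.old ((f' ⟨x, h⟩)) := by
    intro x h; simp only [f]; rw [dif_pos h]
  have hf2 : ∀ (x : H.V), x ∈ S → H.κ x = b → f x = y0 := by
    intro x h h'; simp only [f]; rw [dif_neg (not_not.2 h), if_pos h']
  have hf3 : ∀ (x : H.V), x ∈ S → H.κ x ≠ b → f x = Cod.new (some x) := by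
    intro x h h'; simp only [f]; rw [dif_neg (not_not.2 h), if_neg h']
  have hy0 : ∀ (x : H.V), x ∉ S → f x = y0 → H.κ x = b := by
    intro x hx h
    rw [hf1 x hx] at h
    by_cases hcb : H.κ c = b
    · have h' : y0 = Cod.old (f' ⟨c, hcS⟩) := by simp only [y0]; rw [if_pos hcb]
      rw [h'] at h
      have := hc _ _ (Cod.old_inj h)
      change H.κ x = H.κ c at this
      rw [this, hcb]
    · have h' : y0 = Cod.new none := by simp only [y0]; rw [if_neg hcb]
      rw [h'] at h
      exact absurd h Cod.ne1
  have hy0' : ∀ (x : H.V), y0 ≠ Cod.new (some x) := by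
    intro x
    simp only [y0]
    split_ifs
    · exact Cod.ne1
    · intro h
      exact absurd (Cod.new_inj h) (by simp)
  refine ⟨Cod W (Option H.V), f, ?_, ?_⟩
  · intro x y hxy
    by_cases hx : x ∈ S
    · by_cases hy : y ∈ S
      · by_cases hxb : H.κ x = b
        · by_cases hyb : H.κ y = b
          · rw [hxb, hyb]
          · rw [hf2 x hx hxb, hf3 y hy hyb] at hxy
            exact absurd hxy (hy0' y)
        · by_cases hyb : H.κ y = b
          · rw [hf3 x hx hxb, hf2 y hy hyb] at hxy
            exact absurd hxy.symm (hy0' x)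
          · rw [hf3 x hx hxb, hf3 y hy hyb] at hxy
            have := Option.some.inj (Cod.new_inj hxy)
            rw [this]
      · by_cases hxb : H.κ x = b
        · rw [hf2 x hx hxb] at hxy
          rw [hy0 y hy hxy.symm, hxb]
        · rw [hf3 x hx hxb, hf1 y hy] at hxy
          exact absurd hxy Cod.ne2
    · by_cases hy : y ∈ S
      · by_cases hyb : H.κ y = b
        · rw [hf2 y hy hyb] at hxy
          rw [hy0 x hx hxy, hyb]
        · rw [hf3 y hy hyb, hf1 x hx] at hxy
          exact absurd hxy Cod.ne1
      · rw [hf1 x hx, hf1 y hy] at hxy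
        exact hc _ _ (Cod.old_inj hxy)
  · -- an element of colour `b` in `S` if `κ c ≠ b`
    have hb : H.κ c ≠ b → ∃ x ∈ S, H.κ x = b := by
      intro hcb
      obtain ⟨x, hx⟩ := hS
      by_cases hxb : H.κ x = b
      · exact ⟨x, hx, hxb⟩
      · obtain ⟨z, hz⟩ := hdeg x
        have hzb : H.κ z = b := by
          have := H.col_ne _ _ hz
          revert this hxb
          cases H.κ x <;> cases H.κ z <;> cases b <;> simp
        rcases hcl x hx z hz with h | h
        · exact ⟨z, h, hzb⟩
        · rw [h] at hzb
          exact absurd hzb hcb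
    have h1 : vim (H.restrict (fun x => x ∉ S)) f' + T.card + (if H.κ c = b then 0 else 1)
        ≤ vim H f := by
      unfold vim
      have hsub : ((univ.image f').image (fun w => (Cod.old (w) : Cod W (Option H.V)))) ∪
          (T.image (fun x => (Cod.new (some x) : Cod W (Option H.V)))) ∪
          (if H.κ c = b then ∅ else {Cod.new none}) ⊆ univ.image f := by
        intro o ho
        rw [mem_union, mem_union] at ho
        rw [mem_image]
        rcases ho with (ho | ho) | ho
        · obtain ⟨w, hw, rfl⟩ := mem_image.1 ho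
          obtain ⟨x, -, rfl⟩ := mem_image.1 hw
          exact ⟨x.1, mem_univ _, hf1 x.1 x.2⟩
        · obtain ⟨x, hx, rfl⟩ := mem_image.1 ho
          rw [hT, mem_filter] at hx
          exact ⟨x, mem_univ _, hf3 x hx.1 hx.2⟩
        · split_ifs at ho with hcb
          · exact absurd ho (notMem_empty _)
          · rw [mem_singleton] at ho
            obtain ⟨x, hx, hxb⟩ := hb hcb
            refine ⟨x, mem_univ _, ?_⟩
            rw [hf2 x hx hxb, ho]
            simp only [y0]
            rw [if_neg hcb]
      refine le_trans (le_of_eq ?_) (card_le_card hsub)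
      have e1 : ((univ.image f').image (fun w => (Cod.old w : Cod W (Option H.V)))).card =
          (univ.image f').card := card_image_of_injective _ (fun a b h => Cod.old_inj h)
      have e2 : (T.image (fun x => (Cod.new (some x) : Cod W (Option H.V)))).card = T.card :=
        card_image_of_injective _ (fun a b h => Option.some.inj (Cod.new_inj h))
      have d1 : Disjoint ((univ.image f').image (fun w => (Cod.old w : Cod W (Option H.V))))
          (T.image (fun x => (Cod.new (some x) : Cod W (Option H.V)))) := by
        rw [Finset.disjoint_left]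
        intro o ho ho'
        obtain ⟨w, -, rfl⟩ := mem_image.1 ho
        obtain ⟨x, -, h⟩ := mem_image.1 ho'
        exact absurd h Cod.ne2
      have d2 : Disjoint (((univ.image f').image (fun w => (Cod.old w : Cod W (Option H.V)))) ∪
          (T.image (fun x => (Cod.new (some x) : Cod W (Option H.V)))))
          (if H.κ c = b then ∅ else {Cod.new none}) := by
        rw [Finset.disjoint_left]
        intro o ho ho'
        split_ifs at ho' with hcb
        · exact absurd ho' (notMem_empty _)
        · rw [mem_singleton] at ho'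
          subst ho'
          rw [mem_union, mem_image, mem_image] at ho
          rcases ho with ⟨w, -, h⟩ | ⟨w, -, h⟩
          · exact absurd h Cod.ne1
          · exact absurd (Cod.new_inj h) (by simp)
      rw [card_union_of_disjoint d2, card_union_of_disjoint d1, e1, e2]
      split_ifs
      · rw [card_empty]
        exact congrArg (fun s => (Finset.image f' s).card + T.card + 0) (univ_eq _ _)
      · rw [card_singleton]
        exact congrArg (fun s => (Finset.image f' s).card + T.card + 1) (univ_eq _ _)
    have h2 : eim H f ≤ eim (H.restrict (fun x => x ∉ S)) f' + T.card +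
        (if H.κ c = b then 0 else 1) := by
      unfold eim
      have hsub : (edg H).image (fun p => (f p.1, f p.2)) ⊆
          ((((edg (H.restrict (fun x => x ∉ S))).image (fun p => (f' p.1, f' p.2))).image
            (fun p => ((Cod.old (p.1) : Cod W (Option H.V)),
              (Cod.old (p.2) : Cod W (Option H.V))))) ∪
          T.image (fun x => if b = true then (y0, (Cod.new (some x) : Cod W (Option H.V)))
            else (Cod.new (some x), y0))) ∪
          (if H.κ c = b then ∅ else {if b = true then (y0, f c) else (f c, y0)}) := by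
        -- a general edge with an end in `S`
        have main : ∀ x y, x ∈ S → H.R x y →
            (if H.κ x = true then (f x, f y) else (f y, f x)) ∈
            (T.image (fun x => if b = true then (y0, (Cod.new (some x) : Cod W (Option H.V)))
            else (Cod.new (some x), y0))) ∪
          (if H.κ c = b then ∅ else {if b = true then (y0, f c) else (f c, y0)}) := by
          intro x y hx hxy
          have hκ := H.col_ne _ _ hxy
          rw [mem_union]
          by_cases hxb : H.κ x = b
          · have hyb : H.κ y ≠ b := fun h => hκ (by rw [hxb, h])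
            rcases hcl x hx y hxy with hy | hy
            · left
              rw [mem_image]
              refine ⟨y, mem_filter.2 ⟨hy, hyb⟩, ?_⟩
              rw [hf2 x hx hxb, hf3 y hy hyb, hxb]
            · right
              subst hy
              rw [if_neg hyb, mem_singleton, hf2 x hx hxb, hxb]
          · have hyb : H.κ y = b := by
              revert hκ hxb
              cases H.κ x <;> cases H.κ y <;> cases b <;> simp
            left
            rw [mem_image]
            refine ⟨x, mem_filter.2 ⟨hx, hxb⟩, ?_⟩
            have hfy : f y = y0 := by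
              rcases hcl x hx y hxy with hy | hy
              · exact hf2 y hy hyb
              · subst hy
                rw [hf1 _ hcS]
                simp only [y0]
                rw [if_pos hyb]
            rw [hfy, hf3 x hx hxb]
            have : (H.κ x = true) ↔ ¬ (b = true) := by
              revert hxb
              cases H.κ x <;> cases b <;> simp
            by_cases hbt : b = true
            · rw [if_pos hbt, if_neg (by rw [this]; simpa using hbt)]
            · rw [if_neg hbt, if_pos (this.2 hbt)]
        intro o ho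
        obtain ⟨⟨x, y⟩, hp, rfl⟩ := mem_image.1 ho
        rw [mem_edg] at hp
        simp only at hp ⊢
        rw [union_assoc, mem_union]
        by_cases hx : x ∈ S
        · right
          have := main x y hx hp.2
          rwa [if_pos hp.1] at this
        · by_cases hy : y ∈ S
          · right
            have := main y x hy (H.symm _ _ hp.2)
            have hy' : ¬ (H.κ y = true) := fun h => H.col_ne _ _ hp.2 (by rw [hp.1, h])
            rw [if_neg hy'] at this
            exact this
          · left
            rw [mem_image]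
            refine ⟨(f' ⟨x, hx⟩, f' ⟨y, hy⟩), ?_, ?_⟩
            · rw [mem_image]
              exact ⟨(⟨x, hx⟩, ⟨y, hy⟩), mem_edg.2 hp, rfl⟩
            · simp only
              rw [hf1 x hx, hf1 y hy]
      refine (card_le_card hsub).trans ((card_union_le _ _).trans ?_)
      refine Nat.add_le_add ((card_union_le _ _).trans (Nat.add_le_add card_image_le
        card_image_le)) ?_
      split_ifs <;> simp
    have h3 : (if H.κ c = b then 0 else 1) ≤ 1 := by split_ifs <;> simp
    omega

/-! ### Upper bounds -/

def UB (f : PlaneGraph → ℕ) (k : ℕ) : Prop := ∃ C : ℕ, ∀ G : PlaneGraph, f G ≤ C * G.m ^ k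

theorem Ach.zero (H : Pat) (h : IsEmpty H.V) : Ach H 0 := by
  refine ⟨H.V, id, fun x => (h.false x).elim, ?_⟩
  have : edg H = ∅ := by
    apply Finset.eq_empty_of_forall_notMem
    intro p
    exact (h.false p.1).elim
  unfold eim
  rw [this]
  simp

/-- `f` is bounded by a power whose exponent is achieved by a collapse of `H`. -/
def Q (H : Pat) (f : PlaneGraph → ℕ) : Prop := ∃ k, Ach H k ∧ UB f k

theorem Q.add {H : Pat} {f g : PlaneGraph → ℕ} (hf : Q H f) (hg : Q H g) :
    Q H (fun G => f G + g G) := by
  obtain ⟨k, ha, C, h⟩ := hf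
  obtain ⟨k', ha', C', h'⟩ := hg
  refine ⟨max k k', ?_, C + C', fun G => ?_⟩
  · rcases le_total k k' with h | h
    · rwa [max_eq_right h]
    · rwa [max_eq_left h]
  · have h1 : G.m ^ k ≤ G.m ^ max k k' := Nat.pow_le_pow_right G.hm (le_max_left _ _)
    have h2 : G.m ^ k' ≤ G.m ^ max k k' := Nat.pow_le_pow_right G.hm (le_max_right _ _)
    calc f G + g G ≤ C * G.m ^ k + C' * G.m ^ k' := Nat.add_le_add (h G) (h' G)
      _ ≤ C * G.m ^ max k k' + C' * G.m ^ max k k' :=
          Nat.add_le_add (Nat.mul_le_mul_left _ h1) (Nat.mul_le_mul_left _ h2)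
      _ = _ := by ring

theorem Q.of_le {H : Pat} {f g : PlaneGraph → ℕ} (hg : Q H g) (h : ∀ G, f G ≤ g G) : Q H f := by
  obtain ⟨k, ha, C, h'⟩ := hg
  exact ⟨k, ha, C, fun G => (h G).trans (h' G)⟩

theorem Q.add_sum {H : Pat} {ι : Type} {f : PlaneGraph → ℕ} (hf : Q H f) (s : Finset ι)
    (g : ι → PlaneGraph → ℕ) (hg : ∀ i ∈ s, Q H (g i)) :
    Q H (fun G => f G + ∑ i ∈ s, g i G) := by
  induction s using Finset.induction_on with
  | empty => simpa using hf
  | insert a s ha ih =>
    have h1 := ih (fun i hi => hg i (Finset.mem_insert_of_mem hi))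
    have h2 := hg a (Finset.mem_insert_self _ _)
    refine (h1.add h2).of_le (fun G => ?_)
    rw [Finset.sum_insert ha]; omega

theorem pow_succ_le (G : PlaneGraph) (s : ℕ) : (G.m + 1) ^ s ≤ 2 ^ s * G.m ^ s := by
  rw [← mul_pow]
  apply Nat.pow_le_pow_left
  have := G.hm
  omega

/-- The number of homomorphisms of `H` into a plane of order `m` is at most of order
`m ^ (2 |V(H')| - |E(H')|)` for some collapse `H'` of `H`. -/
theorem expo : ∀ (n : ℕ) (H : Pat), Fintype.card H.V = n → Q H (cnt H) := by
  intro n
  induction n using Nat.strong_induction_on with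
  | _ n ih =>
    intro H hn
    have ih' : ∀ H' : Pat, Fintype.card H'.V < Fintype.card H.V → Q H' (cnt H') :=
      fun H' h => ih _ (hn ▸ h) H' rfl
    by_cases hne : Nonempty H.V
    · by_cases hdeg : ∀ v u w : H.V, ∃ z, H.R v z ∧ z ≠ u ∧ z ≠ w
      · obtain ⟨c, S, b, hS, hcS, hcl, hcnt⟩ := deg3_core H hne hdeg
        have hcardlt : @Fintype.card (H.restrict (fun x => x ∉ S)).V
            (H.restrict (fun x => x ∉ S)).fV < Fintype.card H.V := by
          obtain ⟨d, hd⟩ := hS
          exact @Fintype.card_subtype_lt _ _ _ (H.restrict (fun x => x ∉ S)).fV d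
            (fun h => h hd)
        set s := (S.filter (fun v => H.κ v ≠ b)).card with hs
        have hQ1 : Q H (fun G => (G.m + 1) ^ s * cnt (H.restrict (fun x => x ∉ S)) G) := by
          obtain ⟨k, ha, C, hC⟩ := ih' _ hcardlt
          refine ⟨s + k, ach_block H c S b hS hcS hcl
            (fun v => (hdeg v v v).imp fun _ h => h.1) ha, 2 ^ s * C, fun G => ?_⟩
          calc (G.m + 1) ^ s * cnt (H.restrict (fun x => x ∉ S)) G
              ≤ (2 ^ s * G.m ^ s) * (C * G.m ^ k) := Nat.mul_le_mul (pow_succ_le G s) (hC G)
            _ = _ := by rw [pow_add]; ring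
        refine (hQ1.add_sum (prs H c S) (fun p G => cntId H p.1 p.2 G) ?_).of_le hcnt
        intro i hi
        rw [prs, mem_filter] at hi
        have h1 : ∀ G, cnt (H.ident i.1 i.2 hi.2.1 hi.2.2) G = cntId H i.1 i.2 G :=
          fun G => cnt_ident H i.1 i.2 hi.2.1 hi.2.2 G
        obtain ⟨k, ha, C, hC⟩ := ih' (H.ident i.1 i.2 hi.2.1 hi.2.2)
          (Fintype.card_subtype_lt (x := i.2) (fun h => h rfl))
        exact ⟨k, ach_ident H _ _ _ _ ha, C, fun G => by
          show cntId H i.1 i.2 G ≤ _
          rw [← h1]; exact hC G⟩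
      · push Not at hdeg
        obtain ⟨v, u, w, h⟩ := hdeg
        have hv : ∀ z, H.R v z → z = u ∨ z = w := by
          intro z hz
          by_contra hcon
          push Not at hcon
          exact hcon.2 (h z hz hcon.1)
        have hself : ∀ a, H.R v a → a ≠ v := by
          rintro a ha rfl
          exact H.col_ne _ _ ha rfl
        have hlt : @Fintype.card (H.restrict (fun x => x ≠ v)).V
            (H.restrict (fun x => x ≠ v)).fV < Fintype.card H.V :=
          @Fintype.card_subtype_lt _ _ _ (H.restrict (fun x => x ≠ v)).fV v (fun h => h rfl)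
        obtain ⟨k, ha, C, hC⟩ := ih' _ hlt
        by_cases hall : ∀ z, ¬ H.R v z
        · refine ⟨k + 2, ach_deg0 H v hall ha, C * 3, fun G => ?_⟩
          rw [cnt_deg0 H v hall G]
          have h1 := hC G
          have h2 : G.m ^ 2 + G.m + 1 ≤ 3 * G.m ^ 2 := by
            have := G.hm
            nlinarith
          calc cnt (H.restrict (fun x => x ≠ v)) G * (G.m ^ 2 + G.m + 1)
              ≤ (C * G.m ^ k) * (3 * G.m ^ 2) := Nat.mul_le_mul h1 h2
            _ = _ := by rw [pow_add]; ring
        · push Not at hall
          -- a neighbour `a`; either it is the only one, or there are exactly two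
          have hdeg1 : ∀ a, H.R v a → (∀ z, H.R v z → z = a) → Q H (cnt H) := by
            intro a ha' hz
            refine ⟨k + 1, ach_deg1 H v a hz (hself a ha') ha, C * 2, fun G => ?_⟩
            rw [cnt_deg1 H v a ha' hz G]
            have h1 := hC G
            have h2 : G.m + 1 ≤ 2 * G.m := by
              have := G.hm
              omega
            calc cnt (H.restrict (fun x => x ≠ v)) G * (G.m + 1)
                ≤ (C * G.m ^ k) * (2 * G.m) := Nat.mul_le_mul h1 h2
              _ = _ := by rw [pow_add]; ring
          by_cases hvu : H.R v u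
          · by_cases hvw : H.R v w
            · by_cases huw : u = w
              · exact hdeg1 u hvu (fun z hz => by
                  rcases hv z hz with h | h
                  · exact h
                  · rw [h, huw])
              · have hκ : H.κ u = H.κ w := by
                  have h1 := H.col_ne _ _ hvu
                  have h2 := H.col_ne _ _ hvw
                  revert h1 h2
                  cases H.κ v <;> cases H.κ u <;> cases H.κ w <;> simp
                have hne' : (⟨u, hself u hvu⟩ : (H.restrict (fun x => x ≠ v)).V) ≠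
                    ⟨w, hself w hvw⟩ := fun h => huw (congrArg Subtype.val h)
                have hlt2 : @Fintype.card ((H.restrict (fun x => x ≠ v)).ident ⟨u, hself u hvu⟩
                    ⟨w, hself w hvw⟩ hne' hκ).V ((H.restrict (fun x => x ≠ v)).ident
                      ⟨u, hself u hvu⟩ ⟨w, hself w hvw⟩ hne' hκ).fV < Fintype.card H.V :=
                  lt_trans (card_ident_lt (H.restrict (fun x => x ≠ v)) _ _ hne' hκ) hlt
                obtain ⟨k2, ha2, C2, hC2⟩ := ih' _ hlt2
                have hQ1 : Q H (cnt (H.restrict (fun x => x ≠ v))) :=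
                  ⟨k, ach_deg2 H v u w hv (hself u hvu) (hself w hvw) ha, C, hC⟩
                have hQ2 : Q H (fun G => G.m * cntId (H.restrict (fun x => x ≠ v))
                    ⟨u, hself u hvu⟩ ⟨w, hself w hvw⟩ G) := by
                  refine ⟨k2 + 1, ach_deg2' H v u w hv _ _ hne' hκ ha2, C2, fun G => ?_⟩
                  have h1 := hC2 G
                  rw [cnt_ident (H.restrict (fun x => x ≠ v)) _ _ hne' hκ G] at h1
                  calc G.m * cntId (H.restrict (fun x => x ≠ v)) ⟨u, hself u hvu⟩
                        ⟨w, hself w hvw⟩ G ≤ G.m * (C2 * G.m ^ k2) := Nat.mul_le_mul_left _ h1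
                    _ = _ := by rw [pow_succ]; ring
                exact (hQ1.add hQ2).of_le (fun G => (cnt_deg2 H v u w hvu hvw hv _ _ G).le)
            · exact hdeg1 u hvu (fun z hz => by
                rcases hv z hz with h | h
                · exact h
                · exact absurd (h ▸ hz) hvw)
          · obtain ⟨a, ha'⟩ := hall
            have haw : a = w := by
              rcases hv a ha' with h | h
              · exact absurd (h ▸ ha') hvu
              · exact h
            exact hdeg1 a ha' (fun z hz => by
              rcases hv z hz with h | h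
              · exact absurd (h ▸ hz) hvu
              · rw [h, haw])
    · have hemp : IsEmpty H.V := not_nonempty_iff.1 hne
      refine ⟨0, Ach.zero H hemp, 1, fun G => ?_⟩
      unfold cnt
      rw [pow_zero, mul_one, card_le_one]
      intro f _ g _
      funext x
      exact (hemp.false x).elim

end Pool.Agent.X330.QL
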