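import Mathlib
import Pool.Agent.X330.QL.ExpB

set_option autoImplicit false

namespace Pool.Agent.X330.QL

open Finset Classical Pool.Agent.H279R3.LogConv

theorem cnt_pos (H : Pat) (G : PlaneGraph) : 0 < cnt H G := by
  have h1 : (univ.filter (fun x => G.col x = true)).Nonempty := by
    rw [← card_pos, card_col]; omega
  obtain ⟨p, hp⟩ := h1
  rw [mem_filter] at hp
  have h2 : (nb G p).Nonempty := by
    rw [← card_pos, card_nb]; omega
  obtain ⟨l, hl⟩ := h2
  rw [mem_nb] at hl
  have hcl : G.col l = false := by
    have := G.col_ne _ _ hl
    rw [hp.2] at this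
    revert this
    cases G.col l <;> simp
  unfold cnt
  rw [card_pos]
  refine ⟨fun v => if H.κ v = true then p else l, mem_homs.2 ⟨fun v => ?_, fun u v huv => ?_⟩⟩
  · split_ifs with h
    · rw [hp.2, h]
    · rw [hcl]
      revert h
      cases H.κ v <;> simp
  · have hne := H.col_ne _ _ huv
    by_cases hu : H.κ u = true
    · have hv : ¬ (H.κ v = true) := fun h => hne (by rw [hu, h])
      rw [if_pos hu, if_neg hv]
      exact hl
    · have hv : H.κ v = true := by
        revert hu hne
        cases H.κ u <;> cases H.κ v <;> simp
      rw [if_neg hu, if_pos hv]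
      exact G.symm _ _ hl

theorem edg_restrict (H : Pat) (v : H.V) (T : Finset H.V) (hT : ∀ z ∈ T, H.R v z) :
    (edg (H.restrict (fun x => x ≠ v))).card + T.card ≤ (edg H).card := by
  have h1 : ((edg (H.restrict (fun x => x ≠ v))).image
      (fun p => ((p.1.1, p.2.1) : H.V × H.V))).card = (edg (H.restrict (fun x => x ≠ v))).card := by
    apply card_image_of_injective
    rintro ⟨a, b⟩ ⟨a', b'⟩ h
    simp only [Prod.mk.injEq] at h
    exact Prod.ext (Subtype.ext h.1) (Subtype.ext h.2)
  have h2 : (T.image (fun z => if H.κ v = true then ((v, z) : H.V × H.V) else (z, v))).card =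
      T.card := by
    apply card_image_of_injective
    intro a b h
    simp only at h
    split_ifs at h
    · exact congrArg Prod.snd h
    · exact congrArg Prod.fst h
  rw [← h1, ← h2, ← card_union_of_disjoint]
  · apply card_le_card
    intro o ho
    rw [mem_union] at ho
    rcases ho with ho | ho
    · obtain ⟨⟨a, b⟩, hp, rfl⟩ := mem_image.1 ho
      rw [mem_edg] at hp ⊢
      exact hp
    · obtain ⟨z, hz, rfl⟩ := mem_image.1 ho
      rw [mem_edg]
      split_ifs with h
      · exact ⟨h, hT z hz⟩
      · refine ⟨?_, H.symm _ _ (hT z hz)⟩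
        have := H.col_ne _ _ (hT z hz)
        simp only
        revert this h
        cases H.κ v <;> cases H.κ z <;> simp
  · rw [Finset.disjoint_left]
    intro o ho ho'
    obtain ⟨⟨a, b⟩, hp, rfl⟩ := mem_image.1 ho
    obtain ⟨z, hz, h⟩ := mem_image.1 ho'
    simp only at h
    split_ifs at h
    · exact a.2 (congrArg Prod.fst h).symm
    · exact b.2 (congrArg Prod.snd h).symm

theorem three_mul_le (H : Pat) (hdeg : ∀ v u w : H.V, ∃ z, H.R v z ∧ z ≠ u ∧ z ≠ w) (b : Bool) :
    3 * (univ.filter (fun v => H.κ v ≠ b)).card ≤ (edg H).card := by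
  have hn : ∀ v : H.V, ∃ n : Fin 3 → H.V, Function.Injective n ∧ ∀ i, H.R v (n i) := by
    intro v
    obtain ⟨z1, h1, -, -⟩ := hdeg v v v
    obtain ⟨z2, h2, h21, -⟩ := hdeg v z1 z1
    obtain ⟨z3, h3, h31, h32⟩ := hdeg v z1 z2
    refine ⟨![z1, z2, z3], ?_, ?_⟩
    · intro i j hij
      fin_cases i <;> fin_cases j <;> simp at hij ⊢
      · exact absurd hij.symm h21
      · exact absurd hij.symm h31
      · exact absurd hij h21
      · exact absurd hij.symm h32
      · exact absurd hij h31
      · exact absurd hij h32
    · intro i
      fin_cases i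
      · exact h1
      · exact h2
      · exact h3
  choose n hn1 hn2 using hn
  have h1 : (((univ.filter (fun v => H.κ v ≠ b)) ×ˢ (univ : Finset (Fin 3))).image
      (fun p => if b = true then ((n p.1 p.2, p.1) : H.V × H.V) else (p.1, n p.1 p.2))).card =
      3 * (univ.filter (fun v => H.κ v ≠ b)).card := by
    rw [card_image_of_injective, card_product, card_univ, Fintype.card_fin, mul_comm]
    rintro ⟨a, i⟩ ⟨a', i'⟩ h
    simp only at h
    split_ifs at h
    · have h2 : a = a' := congrArg Prod.snd h
      subst h2
      have h3 : n a i = n a i' := congrArg Prod.fst h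
      rw [hn1 a h3]
    · have h2 : a = a' := congrArg Prod.fst h
      subst h2
      have h3 : n a i = n a i' := congrArg Prod.snd h
      rw [hn1 a h3]
  rw [← h1]
  apply card_le_card
  intro o ho
  obtain ⟨⟨a, i⟩, hp, rfl⟩ := mem_image.1 ho
  rw [mem_product, mem_filter] at hp
  have ha := hp.1.2
  simp only at ha ⊢
  have hne := H.col_ne _ _ (hn2 a i)
  rw [mem_edg]
  split_ifs with hb
  · refine ⟨?_, H.symm _ _ (hn2 a i)⟩
    simp only
    subst hb
    revert ha hne
    cases H.κ a <;> cases H.κ (n a i) <;> simp
  · refine ⟨?_, hn2 a i⟩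
    simp only
    revert ha hb
    cases H.κ a <;> cases b <;> simp

def LBd (f : PlaneGraph → ℕ) (k : ℕ) : Prop := ∃ C : ℕ, ∀ G : PlaneGraph, G.m ^ k ≤ C * f G

theorem lbd_zero (H : Pat) : LBd (cnt H) 0 := by
  refine ⟨1, fun G => ?_⟩
  have := cnt_pos H G
  rw [pow_zero, one_mul]
  exact this

theorem lower_all : ∀ (n : ℕ) (H : Pat), Fintype.card H.V = n →
    ∀ k, k + (edg H).card ≤ 2 * Fintype.card H.V → LBd (cnt H) k := by
  intro n
  induction n using Nat.strong_induction_on with
  | _ n ih =>
    intro H hn k hk
    have ih' : ∀ H' : Pat, Fintype.card H'.V < Fintype.card H.V →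
        ∀ k, k + (edg H').card ≤ 2 * Fintype.card H'.V → LBd (cnt H') k :=
      fun H' h => ih _ (hn ▸ h) H' rfl
    by_cases hne : Nonempty H.V
    · by_cases hdeg : ∀ v u w : H.V, ∃ z, H.R v z ∧ z ≠ u ∧ z ≠ w
      · have h1 := three_mul_le H hdeg
        have hsum : (univ.filter (fun v => H.κ v ≠ true)).card +
            (univ.filter (fun v => H.κ v ≠ false)).card = Fintype.card H.V := by
          have h1 : univ.filter (fun v => H.κ v ≠ false) =
              univ.filter (fun v => ¬ (H.κ v ≠ true)) := by
            apply Finset.filter_congr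
            intro v _
            cases H.κ v <;> simp
          rw [h1]
          exact Finset.card_filter_add_card_filter_not _
        obtain ⟨b, hb⟩ : ∃ b : Bool, k ≤ (univ.filter (fun v => H.κ v ≠ b)).card := by
          by_contra hcon
          push Not at hcon
          have h2 := hcon true
          have h3 := hcon false
          have h4 := h1 true
          have h5 := h1 false
          omega
        obtain ⟨c, hc⟩ : ∃ c : H.V, H.κ c = b := by
          obtain ⟨v⟩ := hne
          by_cases hv : H.κ v = b
          · exact ⟨v, hv⟩
          · obtain ⟨z, hz, -, -⟩ := hdeg v v v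
            refine ⟨z, ?_⟩
            have := H.col_ne _ _ hz
            revert this hv
            cases H.κ v <;> cases H.κ z <;> cases b <;> simp
        refine ⟨1, fun G => ?_⟩
        have h2 := lower H c (univ.erase c) (notMem_erase _ _) (fun x _ y _ => by
          by_cases h : y = c
          · exact Or.inr h
          · exact Or.inl (mem_erase.2 ⟨h, mem_univ _⟩)) b G
        have h3 : (univ.erase c).filter (fun v => H.κ v ≠ b) =
            univ.filter (fun v => H.κ v ≠ b) := by
          ext x
          rw [mem_filter, mem_filter, mem_erase]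
          constructor
          · exact fun h => ⟨mem_univ _, h.2⟩
          · intro h
            refine ⟨⟨?_, mem_univ _⟩, h.2⟩
            rintro rfl
            exact h.2 hc
        rw [h3] at h2
        have h4 := cnt_pos (H.restrict (fun x => x ∉ univ.erase c)) G
        calc G.m ^ k ≤ (G.m + 1) ^ k := Nat.pow_le_pow_left (by omega) _
          _ ≤ (G.m + 1) ^ (univ.filter (fun v => H.κ v ≠ b)).card :=
              Nat.pow_le_pow_right (by omega) hb
          _ ≤ (G.m + 1) ^ (univ.filter (fun v => H.κ v ≠ b)).card *
                cnt (H.restrict (fun x => x ∉ univ.erase c)) G := Nat.le_mul_of_pos_right _ h4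
          _ ≤ 1 * cnt H G := by rw [one_mul]; exact h2
      · push Not at hdeg
        obtain ⟨v, u, w, h⟩ := hdeg
        have hv : ∀ z, H.R v z → z = u ∨ z = w := by
          intro z hz
          by_contra hcon
          push Not at hcon
          exact hcon.2 (h z hz hcon.1)
        have hself : ∀ a, H.R v a → a ≠ v := by
          rintro a ha rfl
          exact H.col_ne _ _ ha rfl
        have hlt : @Fintype.card (H.restrict (fun x => x ≠ v)).V
            (H.restrict (fun x => x ≠ v)).fV < Fintype.card H.V :=
          @Fintype.card_subtype_lt _ _ _ (H.restrict (fun x => x ≠ v)).fV v (fun h => h rfl)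
        have hcard : @Fintype.card (H.restrict (fun x => x ≠ v)).V
            (H.restrict (fun x => x ≠ v)).fV + 1 = Fintype.card H.V := by
          have h1 : @Fintype.card (H.restrict (fun x => x ≠ v)).V
            (H.restrict (fun x => x ≠ v)).fV = Fintype.card H.V - 1 := by
            have h3 := Set.card_ne_eq v
            rw [← h3]
            exact @Fintype.card_congr _ _ (H.restrict (fun x => x ≠ v)).fV _ (Equiv.refl _)
          have h2 : 0 < Fintype.card H.V := Fintype.card_pos
          omega
        have ih0 := ih' _ hlt
        by_cases hall : ∀ z, ¬ H.R v z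
        · have he := edg_restrict H v ∅ (by simp)
          rw [card_empty] at he
          by_cases hk2 : 2 ≤ k
          · obtain ⟨C, hC⟩ := ih0 (k - 2) (by omega)
            refine ⟨C, fun G => ?_⟩
            rw [cnt_deg0 H v hall G]
            have h1 : G.m ^ k = G.m ^ (k - 2) * G.m ^ 2 := by
              rw [← pow_add]; congr 1; omega
            rw [h1]
            calc G.m ^ (k - 2) * G.m ^ 2 ≤ (C * cnt (H.restrict (fun x => x ≠ v)) G) *
                  (G.m ^ 2 + G.m + 1) := Nat.mul_le_mul (hC G) (by omega)
              _ = _ := by ring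
          · refine ⟨1, fun G => ?_⟩
            rw [cnt_deg0 H v hall G, one_mul]
            have h1 := cnt_pos (H.restrict (fun x => x ≠ v)) G
            calc G.m ^ k ≤ G.m ^ 2 := Nat.pow_le_pow_right G.hm (by omega)
              _ ≤ 1 * (G.m ^ 2 + G.m + 1) := by omega
              _ ≤ _ := Nat.mul_le_mul_right _ h1
        · push Not at hall
          have hdeg1 : ∀ a, H.R v a → (∀ z, H.R v z → z = a) → LBd (cnt H) k := by
            intro a ha' hz
            have he := edg_restrict H v {a} (by
              intro z hz
              rw [mem_singleton] at hz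
              rw [hz]; exact ha')
            rw [card_singleton] at he
            by_cases hk1 : 1 ≤ k
            · obtain ⟨C, hC⟩ := ih0 (k - 1) (by omega)
              refine ⟨C, fun G => ?_⟩
              rw [cnt_deg1 H v a ha' hz G]
              have h1 : G.m ^ k = G.m ^ (k - 1) * G.m := by
                rw [← pow_succ]; congr 1; omega
              rw [h1]
              calc G.m ^ (k - 1) * G.m ≤ (C * cnt (H.restrict (fun x => x ≠ v)) G) *
                    (G.m + 1) := Nat.mul_le_mul (hC G) (by omega)
                _ = _ := by ring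
            · have : k = 0 := by omega
              rw [this]
              exact lbd_zero H
          by_cases hvu : H.R v u
          · by_cases hvw : H.R v w
            · by_cases huw : u = w
              · exact hdeg1 u hvu (fun z hz => by
                  rcases hv z hz with h | h
                  · exact h
                  · rw [h, huw])
              · have he := edg_restrict H v {u, w} (by
                  intro z hz
                  rw [mem_insert, mem_singleton] at hz
                  rcases hz with rfl | rfl
                  · exact hvu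
                  · exact hvw)
                rw [card_pair huw] at he
                obtain ⟨C, hC⟩ := ih0 k (by omega)
                refine ⟨C, fun G => (hC G).trans ?_⟩
                apply Nat.mul_le_mul_left
                rw [cnt_deg2 H v u w hvu hvw hv (hself u hvu) (hself w hvw) G]
                omega
            · exact hdeg1 u hvu (fun z hz => by
                rcases hv z hz with h | h
                · exact h
                · exact absurd (h ▸ hz) hvw)
          · obtain ⟨a, ha'⟩ := hall
            have haw : a = w := by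
              rcases hv a ha' with h | h
              · exact absurd (h ▸ ha') hvu
              · exact h
            exact hdeg1 a ha' (fun z hz => by
              rcases hv z hz with h | h
              · exact absurd (h ▸ hz) hvu
              · rw [h, haw])
    · have hemp : IsEmpty H.V := not_nonempty_iff.1 hne
      have h0 : Fintype.card H.V = 0 := Fintype.card_eq_zero
      have : k = 0 := by omega
      rw [this]
      exact lbd_zero H

/-- The image pattern of a collapse. -/
noncomputable abbrev img (H : Pat) {W : Type} (f : H.V → W) (hc : Compat H f) : Pat where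
  V := Set.range f
  κ := fun w => H.κ w.2.choose
  R := fun a b => ∃ x y, f x = a.1 ∧ f y = b.1 ∧ H.R x y
  symm := by
    rintro a b ⟨x, y, h1, h2, h3⟩
    exact ⟨y, x, h2, h1, H.symm _ _ h3⟩
  col_ne := by
    rintro a b ⟨x, y, h1, h2, h3⟩
    have e1 : H.κ a.2.choose = H.κ x := hc _ _ (a.2.choose_spec.trans h1.symm)
    have e2 : H.κ b.2.choose = H.κ y := hc _ _ (b.2.choose_spec.trans h2.symm)
    rw [e1, e2]
    exact H.col_ne _ _ h3

theorem img_κ (H : Pat) {W : Type} (f : H.V → W) (hc : Compat H f) (x : H.V) :
    (img H f hc).κ ⟨f x, x, rfl⟩ = H.κ x :=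
  hc _ _ (Set.mem_range_self x).choose_spec

theorem cnt_img_le (H : Pat) {W : Type} (f : H.V → W) (hc : Compat H f) (G : PlaneGraph) :
    cnt (img H f hc) G ≤ cnt H G := by
  unfold cnt
  apply card_le_card_of_injOn (fun (φ : Set.range f → G.W) => fun x => φ ⟨f x, x, rfl⟩)
  · intro φ hφ
    rw [Finset.mem_coe, mem_homs] at hφ ⊢
    refine ⟨fun v => ?_, fun u v huv => ?_⟩
    · rw [hφ.1]
      exact img_κ H f hc v
    · exact hφ.2 _ _ ⟨u, v, rfl, rfl, huv⟩
  · intro φ _ ψ _ h
    funext ⟨w, x, hx⟩
    subst hx
    exact congrFun h x

theorem card_img (H : Pat) {W : Type} (f : H.V → W) (hc : Compat H f) :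
    Fintype.card (img H f hc).V = vim H f := by
  unfold vim
  have : univ.image f = (Set.range f).toFinset := by
    ext w; simp
  rw [this, Set.toFinset_card]

theorem edg_img (H : Pat) {W : Type} (f : H.V → W) (hc : Compat H f) :
    (edg (img H f hc)).card ≤ eim H f := by
  unfold eim
  refine card_le_card_of_injOn (fun (p : Set.range f × Set.range f) => (p.1.1, p.2.1)) ?_ ?_
  · rintro ⟨a, b⟩ h
    rw [Finset.mem_coe, mem_edg] at h
    obtain ⟨h1, x, y, hx, hy, hR⟩ := h
    rw [Finset.mem_coe, mem_image]
    refine ⟨(x, y), mem_edg.2 ⟨?_, hR⟩, ?_⟩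
    · have e : (img H f hc).κ a = H.κ x := by
        have : a = ⟨f x, x, rfl⟩ := Subtype.ext hx.symm
        rw [this]
        exact img_κ H f hc x
      rw [← h1]
      exact e.symm
    · exact Prod.ext hx hy
  · rintro ⟨a, b⟩ _ ⟨a', b'⟩ _ h
    simp only [Prod.mk.injEq] at h
    exact Prod.ext (Subtype.ext h.1) (Subtype.ext h.2)

/-- Any exponent achieved by a collapse is a lower bound. -/
theorem lower_ach (H : Pat) (k : ℕ) (h : Ach H k) : LBd (cnt H) k := by
  obtain ⟨W, f, hc, hk⟩ := h
  have h1 := card_img H f hc
  have h2 := edg_img H f hc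
  obtain ⟨C, hC⟩ := lower_all _ (img H f hc) rfl k (by omega)
  exact ⟨C, fun G => (hC G).trans (Nat.mul_le_mul_left _ (cnt_img_le H f hc G))⟩

end Pool.Agent.X330.QL
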