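import Mathlib
import Pool.Agent.X330.QL.ExpC

set_option autoImplicit false

namespace Pool.Agent.X330.QL

open Filter Topology Pool.Agent.H279R3.LogConv

/-! ### The definitions of the problem -/

/-- A finite bipartite graph `(V₁, V₂, E)` with labelled classes and `E ⊆ V₁ × V₂`. -/
structure BiGraph where
  V₁ : Type
  V₂ : Type
  [fin₁ : Fintype V₁]
  [fin₂ : Fintype V₂]
  E : V₁ → V₂ → Prop

attribute [instance] BiGraph.fin₁ BiGraph.fin₂

/-- The number of vertices. -/
def nV (H : BiGraph) : ℕ := Fintype.card H.V₁ + Fintype.card H.V₂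

/-- The number of edges. -/
noncomputable def nE (H : BiGraph) : ℕ := Nat.card {p : H.V₁ × H.V₂ // H.E p.1 p.2}

/-- The number of graph homomorphisms `H → G` mapping `V₁(H)` into `V₁(G)` and `V₂(H)` into
`V₂(G)`. -/
noncomputable def hom (H G : BiGraph) : ℕ :=
  Nat.card {f : (H.V₁ → G.V₁) × (H.V₂ → G.V₂) // ∀ x y, H.E x y → G.E (f.1 x) (f.2 y)}

/-- The bipartite density `t_B(H,G)`. -/
noncomputable def tB (H G : BiGraph) : ℝ :=
  (hom H G : ℝ) /
    ((Fintype.card G.V₁ : ℝ) ^ Fintype.card H.V₁ * (Fintype.card G.V₂ : ℝ) ^ Fintype.card H.V₂)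

/-- The class `𝓑₀`: the graph has at least one edge. -/
def HasEdge (H : BiGraph) : Prop := ∃ x y, H.E x y

/-- The single edge, with one endpoint in each class. -/
def K2 : BiGraph where
  V₁ := Unit
  V₂ := Unit
  E := fun _ _ => True

/-- Complete bipartite graphs. -/
def IsComplete (G : BiGraph) : Prop := ∀ x y, G.E x y

open Classical in
/-- The normalised log density `h(H,G)`. -/
noncomputable def hLog (H G : BiGraph) : ℝ :=
  if IsComplete G then (nE H : ℝ) else Real.log (tB H G) / Real.log (tB K2 G)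

/-- `H'` is a collapse of `H`: there is a homomorphism `H → H'` (respecting the classes) which is
surjective on vertices and on edges. -/
def IsCollapse (H H' : BiGraph) : Prop :=
  ∃ (f₁ : H.V₁ → H'.V₁) (f₂ : H.V₂ → H'.V₂), Function.Surjective f₁ ∧ Function.Surjective f₂ ∧
    (∀ x y, H.E x y → H'.E (f₁ x) (f₂ y)) ∧
    ∀ x' y', H'.E x' y' → ∃ x y, H.E x y ∧ f₁ x = x' ∧ f₂ y = y'

/-- `r(H)`: the minimum of `|E(H')| + 2 (|V(H)| - |V(H')|)` over the collapses `H'` of `H`. -/
noncomputable def rr (H : BiGraph) : ℕ :=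
  sInf {k | ∃ H' : BiGraph, IsCollapse H H' ∧ k = nE H' + 2 * (nV H - nV H')}

/-- The sequence has the quasirandom log-limit. -/
def QuasirandomLogLimit (G : ℕ → BiGraph) : Prop :=
  ∀ H : BiGraph, HasEdge H → Tendsto (fun n => hLog H (G n)) atTop (𝓝 (rr H : ℝ))

open Classical in
/-- The adjacency matrix of the underlying simple graph on `V₁ ∪ V₂`. -/
noncomputable def adjM (G : BiGraph) : Matrix (G.V₁ ⊕ G.V₂) (G.V₁ ⊕ G.V₂) ℂ :=
  Matrix.fromBlocks 0 (Matrix.of fun x y => if G.E x y then 1 else 0)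
    (Matrix.of fun y x => if G.E x y then 1 else 0) 0

open Classical in
/-- The spectrum: the multiset of the eigenvalues of the adjacency matrix (the roots of its
characteristic polynomial, with multiplicities). -/
noncomputable def spec (G : BiGraph) : Multiset ℂ := (adjM G).charpoly.roots

/-- The incidence graph of a finite incidence structure: points as `V₁`, lines as `V₂`. -/
def incidenceGraph (P L : Type) [Membership P L] [Fintype P] [Fintype L] : BiGraph where
  V₁ := P
  V₂ := L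
  E := fun p l => p ∈ l

/-! ### Translation -/

/-- symmetrised relation on the disjoint union -/
def sumRel {A B : Type} (E : A → B → Prop) : A ⊕ B → A ⊕ B → Prop
  | Sum.inl x, Sum.inr y => E x y
  | Sum.inr y, Sum.inl x => E x y
  | _, _ => False

def toPat (H : BiGraph) : Pat where
  V := H.V₁ ⊕ H.V₂
  κ := Sum.isLeft
  R := sumRel H.E
  symm := by
    rintro (x | x) (y | y) h
    · exact h
    · exact h
    · exact h
    · exact h
  col_ne := by
    rintro (x | x) (y | y) h
    · exact h.elim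
    · simp
    · simp
    · exact h.elim

section Plane

variable (P L : Type) [Membership P L] [Fintype P] [Fintype L] [Configuration.ProjectivePlane P L]

def nbL (p : P) : {y : P ⊕ L // sumRel (fun (p : P) (l : L) => p ∈ l) (Sum.inl p) y} ≃
    {l : L // p ∈ l} where
  toFun := fun y => match y with
    | ⟨Sum.inr l, h⟩ => ⟨l, h⟩
    | ⟨Sum.inl _, h⟩ => h.elim
  invFun := fun l => ⟨Sum.inr l.1, l.2⟩
  left_inv := by
    rintro ⟨(x | x), h⟩
    · exact h.elim
    · rfl
  right_inv := by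
    rintro ⟨l, h⟩
    rfl

def nbR (l : L) : {y : P ⊕ L // sumRel (fun (p : P) (l : L) => p ∈ l) (Sum.inr l) y} ≃
    {p : P // p ∈ l} where
  toFun := fun y => match y with
    | ⟨Sum.inl p, h⟩ => ⟨p, h⟩
    | ⟨Sum.inr _, h⟩ => h.elim
  invFun := fun p => ⟨Sum.inl p.1, p.2⟩
  left_inv := by
    rintro ⟨(x | x), h⟩
    · rfl
    · exact h.elim
  right_inv := by
    rintro ⟨l, h⟩
    rfl

def colL : {y : P ⊕ L // y.isLeft = true} ≃ P where
  toFun := fun y => match y with
    | ⟨Sum.inl p, _⟩ => p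
  invFun := fun p => ⟨Sum.inl p, rfl⟩
  left_inv := by
    rintro ⟨(x | x), h⟩
    · rfl
    · exact absurd h (by simp)
  right_inv := by
    intro p
    rfl

def colR : {y : P ⊕ L // y.isLeft = false} ≃ L where
  toFun := fun y => match y with
    | ⟨Sum.inr p, _⟩ => p
  invFun := fun p => ⟨Sum.inr p, rfl⟩
  left_inv := by
    rintro ⟨(x | x), h⟩
    · exact absurd h (by simp)
    · rfl
  right_inv := by
    intro p
    rfl

open Configuration in
noncomputable def toPlane : PlaneGraph where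
  W := P ⊕ L
  col := Sum.isLeft
  Adj := sumRel (fun p l => p ∈ l)
  m := ProjectivePlane.order P L
  hm := (ProjectivePlane.one_lt_order P L).le
  symm := by
    rintro (x | x) (y | y) h
    · exact h
    · exact h
    · exact h
    · exact h
  col_ne := by
    rintro (x | x) (y | y) h
    · exact h.elim
    · simp
    · simp
    · exact h.elim
  nbr := by
    rintro (p | l)
    · rw [Nat.card_congr (nbL P L p)]
      exact ProjectivePlane.lineCount_eq L p
    · rw [Nat.card_congr (nbR P L l)]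
      exact ProjectivePlane.pointCount_eq P l
  common := by
    rintro (x | x) (y | y) hne hcol
    · have hxy : x ≠ y := fun h => hne (h ▸ rfl)
      refine ⟨Sum.inr (HasLines.mkLine (L := L) hxy), (HasLines.mkLine_ax hxy).1,
        (HasLines.mkLine_ax hxy).2, ?_⟩
      rintro (z | z) h1 h2
      · exact h1.elim
      · congr 1
        exact (Nondegenerate.eq_or_eq (P := P) (L := L) h1 h2 (HasLines.mkLine_ax hxy).1
          (HasLines.mkLine_ax hxy).2).resolve_left hxy
    · exact absurd hcol (by simp)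
    · exact absurd hcol (by simp)
    · have hxy : x ≠ y := fun h => hne (h ▸ rfl)
      refine ⟨Sum.inl (HasPoints.mkPoint (P := P) hxy), (HasPoints.mkPoint_ax hxy).1,
        (HasPoints.mkPoint_ax hxy).2, ?_⟩
      rintro (z | z) h1 h2
      · congr 1
        exact (Nondegenerate.eq_or_eq (P := P) (L := L) h1 (HasPoints.mkPoint_ax hxy).1 h2
          (HasPoints.mkPoint_ax hxy).2).resolve_right hxy
      · exact h1.elim
  cnt := by
    rintro (b | b)
    · rw [Nat.card_congr (colR P L), Nat.card_eq_fintype_card]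
      exact ProjectivePlane.card_lines P L
    · rw [Nat.card_congr (colL P L), Nat.card_eq_fintype_card]
      exact ProjectivePlane.card_points P L

theorem hom_eq (H : BiGraph) :
    hom H (incidenceGraph P L) = cnt (toPat H) (toPlane P L) := by
  classical
  unfold hom cnt
  rw [← Fintype.card_coe, ← Nat.card_eq_fintype_card]
  refine Nat.card_congr (Equiv.ofBijective
    (fun f => (⟨Sum.map f.1.1 f.1.2, ?_⟩ : {φ // φ ∈ homs (toPat H) (toPlane P L)})) ⟨?_, ?_⟩)
  · refine mem_homs.2 ⟨?_, ?_⟩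
    · rintro (x | x)
      · rfl
      · rfl
    · rintro (x | x) (y | y) hxy
      · exact hxy.elim
      · exact f.2 x y hxy
      · exact f.2 y x hxy
      · exact hxy.elim
  · rintro ⟨⟨f₁, f₂⟩, hf⟩ ⟨⟨g₁, g₂⟩, hg⟩ h
    have h1 := congrArg Subtype.val h
    simp only at h1
    apply Subtype.ext
    apply Prod.ext
    · funext x
      exact Sum.inl.inj (congrFun h1 (Sum.inl x))
    · funext x
      exact Sum.inr.inj (congrFun h1 (Sum.inr x))
  · rintro ⟨φ, hφ⟩
    rw [mem_homs] at hφ
    have h1 : ∀ x : H.V₁, ∃ p : P, φ (Sum.inl x) = Sum.inl p := by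
      intro x
      have h2 := hφ.1 (Sum.inl x)
      change (φ (Sum.inl x)).isLeft = true at h2
      rcases hx : φ (Sum.inl x) with p | l
      · exact ⟨p, rfl⟩
      · rw [hx] at h2; exact absurd h2 (by simp)
    have h2 : ∀ x : H.V₂, ∃ l : L, φ (Sum.inr x) = Sum.inr l := by
      intro x
      have h2 := hφ.1 (Sum.inr x)
      change (φ (Sum.inr x)).isLeft = false at h2
      rcases hx : φ (Sum.inr x) with p | l
      · rw [hx] at h2; exact absurd h2 (by simp)
      · exact ⟨l, rfl⟩
    choose f₁ hf₁ using h1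
    choose f₂ hf₂ using h2
    refine ⟨⟨(f₁, f₂), ?_⟩, ?_⟩
    · intro x y hxy
      have h3 := hφ.2 (Sum.inl x) (Sum.inr y) hxy
      rw [hf₁, hf₂] at h3
      exact h3
    · apply Subtype.ext
      funext x
      rcases x with x | x
      · exact (hf₁ x).symm
      · exact (hf₂ x).symm

end Plane


/-! ### The exponents -/

theorem self_collapse (H : BiGraph) : IsCollapse H H :=
  ⟨id, id, Function.surjective_id, Function.surjective_id, fun _ _ h => h,
    fun x y h => ⟨x, y, h, rfl, rfl⟩⟩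

theorem nV_le (H H' : BiGraph) (h : IsCollapse H H') : nV H' ≤ nV H := by
  obtain ⟨f₁, f₂, h1, h2, -⟩ := h
  exact Nat.add_le_add (Fintype.card_le_of_surjective f₁ h1) (Fintype.card_le_of_surjective f₂ h2)

open Classical in
theorem ach_collapse (H : BiGraph) (k : ℕ) (h : Ach (toPat H) k) :
    ∃ H' : BiGraph, IsCollapse H H' ∧ k + nE H' ≤ 2 * nV H' := by
  obtain ⟨W, f, hc, hk⟩ := h
  let H' : BiGraph :=
    { V₁ := Set.range (fun x : H.V₁ => f (Sum.inl x))
      V₂ := Set.range (fun y : H.V₂ => f (Sum.inr y))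
      E := fun a b => ∃ x y, H.E x y ∧ f (Sum.inl x) = a.1 ∧ f (Sum.inr y) = b.1 }
  have h1 : vim (toPat H) f ≤ nV H' := by
    unfold vim nV
    have hsub : (Finset.univ.image f : Finset W) ⊆
        (Set.range (fun x : H.V₁ => f (Sum.inl x))).toFinset ∪
        (Set.range (fun y : H.V₂ => f (Sum.inr y))).toFinset := by
      intro w hw
      obtain ⟨x, -, rfl⟩ := Finset.mem_image.1 hw
      rw [Finset.mem_union, Set.mem_toFinset, Set.mem_toFinset]
      rcases x with x | x
      · exact Or.inl ⟨x, rfl⟩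
      · exact Or.inr ⟨x, rfl⟩
    refine (Finset.card_le_card hsub).trans ((Finset.card_union_le _ _).trans ?_)
    rw [Set.toFinset_card, Set.toFinset_card]
  have h2 : nE H' ≤ eim (toPat H) f := by
    unfold nE eim
    rw [Nat.card_eq_fintype_card, ← Finset.card_univ]
    refine Finset.card_le_card_of_injOn (fun p => (p.1.1.1, p.1.2.1)) ?_ ?_
    · rintro ⟨⟨a, b⟩, x, y, hxy, ha, hb⟩ -
      rw [Finset.mem_coe, Finset.mem_image]
      refine ⟨(Sum.inl x, Sum.inr y), mem_edg.2 ⟨rfl, hxy⟩, ?_⟩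
      exact Prod.ext ha hb
    · rintro ⟨⟨a, b⟩, h⟩ - ⟨⟨a', b'⟩, h'⟩ - heq
      simp only [Prod.mk.injEq] at heq
      apply Subtype.ext
      exact Prod.ext (Subtype.ext heq.1) (Subtype.ext heq.2)
  refine ⟨H', ⟨fun x => ⟨f (Sum.inl x), x, rfl⟩, fun y => ⟨f (Sum.inr y), y, rfl⟩, ?_, ?_, ?_, ?_⟩,
    by omega⟩
  · rintro ⟨_, x, rfl⟩
    exact ⟨x, rfl⟩
  · rintro ⟨_, x, rfl⟩
    exact ⟨x, rfl⟩
  · intro x y hxy
    exact ⟨x, y, hxy, rfl, rfl⟩
  · rintro ⟨a, ha⟩ ⟨b, hb⟩ ⟨x, y, hxy, h1, h2⟩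
    exact ⟨x, y, hxy, Subtype.ext h1, Subtype.ext h2⟩

open Classical in
theorem collapse_ach (H H' : BiGraph) (h : IsCollapse H H') (k : ℕ)
    (hk : k + nE H' ≤ 2 * nV H') : Ach (toPat H) k := by
  obtain ⟨f₁, f₂, h1, h2, h3, h4⟩ := h
  let f : (toPat H).V → Cod H'.V₁ H'.V₂ :=
    Sum.elim (fun x => Cod.old (f₁ x)) (fun y => Cod.new (f₂ y))
  refine ⟨Cod H'.V₁ H'.V₂, f, ?_, ?_⟩
  · rintro (x | x) (y | y) hxy
    · rfl
    · exact absurd hxy Cod.ne1
    · exact absurd hxy Cod.ne2
    · rfl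
  · have hv : nV H' ≤ vim (toPat H) f := by
      unfold vim nV
      rw [← Fintype.card_sum, ← Finset.card_univ]
      refine Finset.card_le_card_of_injOn (Sum.elim Cod.old Cod.new) ?_ ?_
      · rintro (a | b) -
        · obtain ⟨x, rfl⟩ := h1 a
          exact Finset.mem_image.2 ⟨Sum.inl x, Finset.mem_univ _, rfl⟩
        · obtain ⟨x, rfl⟩ := h2 b
          exact Finset.mem_image.2 ⟨Sum.inr x, Finset.mem_univ _, rfl⟩
      · rintro (a | a) - (b | b) - hab
        · exact congrArg Sum.inl (Cod.old_inj hab)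
        · exact absurd hab Cod.ne1
        · exact absurd hab Cod.ne2
        · exact congrArg Sum.inr (Cod.new_inj hab)
    have he : eim (toPat H) f ≤ nE H' := by
      unfold eim nE
      rw [Nat.card_eq_fintype_card, ← Finset.card_univ]
      have hsub : (edg (toPat H)).image (fun p => (f p.1, f p.2)) ⊆
          (Finset.univ : Finset {p : H'.V₁ × H'.V₂ // H'.E p.1 p.2}).image
            (fun p => ((Cod.old p.1.1 : Cod H'.V₁ H'.V₂), (Cod.new p.1.2 : Cod H'.V₁ H'.V₂))) := by
        intro o ho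
        obtain ⟨⟨x, y⟩, hp, rfl⟩ := Finset.mem_image.1 ho
        rw [mem_edg] at hp
        rw [Finset.mem_image]
        rcases x with x | x
        · rcases y with y | y
          · exact hp.2.elim
          · exact ⟨⟨(f₁ x, f₂ y), h3 x y hp.2⟩, Finset.mem_univ _, rfl⟩
        · exact absurd hp.1 (by simp [toPat])
      exact (Finset.card_le_card hsub).trans Finset.card_image_le
    omega

/-- The exponent `2 |V(H)| - r(H)` is correct for all projective planes. -/
theorem kappa (H : BiGraph) : rr H ≤ 2 * nV H ∧ ∃ C : ℕ, ∀ G : PlaneGraph,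
    cnt (toPat H) G ≤ C * G.m ^ (2 * nV H - rr H) ∧
    G.m ^ (2 * nV H - rr H) ≤ C * cnt (toPat H) G := by
  obtain ⟨k, ha, C, hC⟩ := expo _ (toPat H) rfl
  obtain ⟨H₁, hc₁, hk₁⟩ := ach_collapse H k ha
  have hne : {k | ∃ H' : BiGraph, IsCollapse H H' ∧ k = nE H' + 2 * (nV H - nV H')}.Nonempty :=
    ⟨_, H, self_collapse H, rfl⟩
  obtain ⟨H₀, hc₀, hr₀⟩ := Nat.sInf_mem hne
  have hr₁ : rr H ≤ nE H₁ + 2 * (nV H - nV H₁) := Nat.sInf_le ⟨H₁, hc₁, rfl⟩
  have hv₀ := nV_le H H₀ hc₀
  have hv₁ := nV_le H H₁ hc₁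
  change rr H = _ at hr₀
  have hle : rr H ≤ 2 * nV H := by omega
  refine ⟨hle, ?_⟩
  obtain ⟨C', hC'⟩ := lower_ach (toPat H) (2 * nV H - rr H)
    (collapse_ach H H₀ hc₀ _ (by omega))
  refine ⟨C + C', fun G => ⟨?_, ?_⟩⟩
  · calc cnt (toPat H) G ≤ C * G.m ^ k := hC G
      _ ≤ C * G.m ^ (2 * nV H - rr H) :=
          Nat.mul_le_mul_left _ (Nat.pow_le_pow_right G.hm (by omega))
      _ ≤ _ := Nat.mul_le_mul_right _ (Nat.le_add_right _ _)
  · exact (hC' G).trans (Nat.mul_le_mul_right _ (Nat.le_add_left _ _))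

end Pool.Agent.X330.QL
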