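import Mathlib
import Pool.Agent.X330.QL.Def

set_option autoImplicit false

namespace Pool.Agent.X330.QL

open Filter Topology Pool.Agent.H279R3.LogConv

/-- The type of homomorphisms. -/
abbrev Hm (H G : BiGraph) : Type :=
  {f : (H.V₁ → G.V₁) × (H.V₂ → G.V₂) // ∀ x y, H.E x y → G.E (f.1 x) (f.2 y)}

/-- The edge relation of a disjoint union. -/
def addE (X Y : BiGraph) : X.V₁ ⊕ Y.V₁ → X.V₂ ⊕ Y.V₂ → Prop
  | Sum.inl x, Sum.inl y => X.E x y
  | Sum.inr x, Sum.inr y => Y.E x y
  | _, _ => False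

/-- The disjoint union of two bipartite graphs. -/
def addG (X Y : BiGraph) : BiGraph where
  V₁ := X.V₁ ⊕ Y.V₁
  V₂ := X.V₂ ⊕ Y.V₂
  E := addE X Y

/-- The induced subgraph on a pair of subsets, given by Boolean functions. -/
noncomputable def subG (H : BiGraph) (c : (H.V₁ → Bool) × (H.V₂ → Bool)) (b : Bool) : BiGraph where
  V₁ := {x // c.1 x = b}
  V₂ := {y // c.2 y = b}
  E := fun x y => H.E x.1 y.1

def Closed (H : BiGraph) (c : (H.V₁ → Bool) × (H.V₂ → Bool)) : Prop :=
  ∀ x y, H.E x y → c.1 x = c.2 y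

theorem hom_sub_mul (H X : BiGraph) (c : (H.V₁ → Bool) × (H.V₂ → Bool)) (hc : Closed H c) :
    hom (subG H c true) X * hom (subG H c false) X ≤ hom H X := by
  unfold hom
  rw [← Nat.card_prod]
  have key : ∀ b : Bool, ¬ (b = true) → b = false := by decide
  let F : Hm (subG H c true) X × Hm (subG H c false) X → Hm H X := fun p =>
    ⟨(fun x => if h : c.1 x = true then p.1.1.1 ⟨x, h⟩ else p.2.1.1 ⟨x, key _ h⟩,
      fun y => if h : c.2 y = true then p.1.1.2 ⟨y, h⟩ else p.2.1.2 ⟨y, key _ h⟩), by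
      intro x y hxy
      have h1 := hc x y hxy
      by_cases hx : c.1 x = true
      · have hy : c.2 y = true := by rw [← h1, hx]
        simp only [dif_pos hx, dif_pos hy]
        exact p.1.2 ⟨x, hx⟩ ⟨y, hy⟩ hxy
      · have hy : ¬ (c.2 y = true) := by rw [← h1]; exact hx
        simp only [dif_neg hx, dif_neg hy]
        exact p.2.2 ⟨x, key _ hx⟩ ⟨y, key _ hy⟩ hxy⟩
  apply Nat.card_le_card_of_injective F
  rintro ⟨⟨⟨g1, g2⟩, hg⟩, ⟨⟨k1, k2⟩, hk⟩⟩ ⟨⟨⟨g1', g2'⟩, hg'⟩, ⟨⟨k1', k2'⟩, hk'⟩⟩ h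
  have h1 := congrArg (fun q => q.1.1) h
  have h2 := congrArg (fun q => q.1.2) h
  simp only [F] at h1 h2
  have e1 : g1 = g1' := by
    funext ⟨x, hx⟩
    have := congrFun h1 x
    simpa only [dif_pos hx] using this
  have e2 : g2 = g2' := by
    funext ⟨x, hx⟩
    have := congrFun h2 x
    simpa only [dif_pos hx] using this
  have e3 : k1 = k1' := by
    funext ⟨x, hx⟩
    have hx' : ¬ (c.1 x = true) := by rw [hx]; simp
    have := congrFun h1 x
    simpa only [dif_neg hx'] using this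
  have e4 : k2 = k2' := by
    funext ⟨x, hx⟩
    have hx' : ¬ (c.2 x = true) := by rw [hx]; simp
    have := congrFun h2 x
    simpa only [dif_neg hx'] using this
  subst e1 e2 e3 e4
  rfl

open Classical in
theorem hom_add_le (H X Y : BiGraph) :
    hom H (addG X Y) ≤ ∑ c : {c : (H.V₁ → Bool) × (H.V₂ → Bool) // Closed H c},
      hom (subG H c.1 true) X * hom (subG H c.1 false) Y := by
  have key : ∀ b : Bool, ¬ (b = true) → b = false := by decide
  let F : (Σ c : {c : (H.V₁ → Bool) × (H.V₂ → Bool) // Closed H c},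
      Hm (subG H c.1 true) X × Hm (subG H c.1 false) Y) → Hm H (addG X Y) := fun p =>
    ⟨(fun x => if h : p.1.1.1 x = true then Sum.inl (p.2.1.1.1 ⟨x, h⟩)
        else Sum.inr (p.2.2.1.1 ⟨x, key _ h⟩),
      fun y => if h : p.1.1.2 y = true then Sum.inl (p.2.1.1.2 ⟨y, h⟩)
        else Sum.inr (p.2.2.1.2 ⟨y, key _ h⟩)), by
      intro x y hxy
      have h1 := p.1.2 x y hxy
      by_cases hx : p.1.1.1 x = true
      · have hy : p.1.1.2 y = true := by rw [← h1, hx]
        simp only [dif_pos hx, dif_pos hy]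
        exact p.2.1.2 ⟨x, hx⟩ ⟨y, hy⟩ hxy
      · have hy : ¬ (p.1.1.2 y = true) := by rw [← h1]; exact hx
        simp only [dif_neg hx, dif_neg hy]
        exact p.2.2.2 ⟨x, key _ hx⟩ ⟨y, key _ hy⟩ hxy⟩
  have hF : Function.Surjective F := by
    rintro ⟨⟨f1, f2⟩, hf⟩
    let c : (H.V₁ → Bool) × (H.V₂ → Bool) := (fun x => (f1 x).isLeft, fun y => (f2 y).isLeft)
    have hc : Closed H c := by
      intro x y hxy
      have h1 : addE X Y (f1 x) (f2 y) := hf x y hxy
      simp only [c]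
      revert h1
      generalize f1 x = a
      generalize f2 y = b
      intro h1
      rcases a with a | a <;> rcases b with b | b
      · rfl
      · exact h1.elim
      · exact h1.elim
      · rfl
    have g1 : ∀ x : (subG H c true).V₁, ∃ a : X.V₁, f1 x.1 = Sum.inl a := by
      rintro ⟨x, hx⟩
      simp only [c] at hx
      rcases hfx : f1 x with a | a
      · exact ⟨a, rfl⟩
      · rw [hfx] at hx; exact absurd hx (by simp)
    have g2 : ∀ x : (subG H c true).V₂, ∃ a : X.V₂, f2 x.1 = Sum.inl a := by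
      rintro ⟨x, hx⟩
      simp only [c] at hx
      rcases hfx : f2 x with a | a
      · exact ⟨a, rfl⟩
      · rw [hfx] at hx; exact absurd hx (by simp)
    have g3 : ∀ x : (subG H c false).V₁, ∃ a : Y.V₁, f1 x.1 = Sum.inr a := by
      rintro ⟨x, hx⟩
      simp only [c] at hx
      rcases hfx : f1 x with a | a
      · rw [hfx] at hx; exact absurd hx (by simp)
      · exact ⟨a, rfl⟩
    have g4 : ∀ x : (subG H c false).V₂, ∃ a : Y.V₂, f2 x.1 = Sum.inr a := by
      rintro ⟨x, hx⟩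
      simp only [c] at hx
      rcases hfx : f2 x with a | a
      · rw [hfx] at hx; exact absurd hx (by simp)
      · exact ⟨a, rfl⟩
    choose a1 ha1 using g1
    choose a2 ha2 using g2
    choose b1 hb1 using g3
    choose b2 hb2 using g4
    refine ⟨⟨⟨c, hc⟩, ⟨⟨(a1, a2), ?_⟩, ⟨(b1, b2), ?_⟩⟩⟩, ?_⟩
    · intro x y hxy
      have h1 : addE X Y (f1 x.1) (f2 y.1) := hf x.1 y.1 hxy
      rw [ha1, ha2] at h1
      exact h1
    · intro x y hxy
      have h1 : addE X Y (f1 x.1) (f2 y.1) := hf x.1 y.1 hxy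
      rw [hb1, hb2] at h1
      exact h1
    · apply Subtype.ext
      apply Prod.ext
      · funext x
        simp only [F]
        by_cases hx : c.1 x = true
        · rw [dif_pos hx]
          exact (ha1 ⟨x, hx⟩).symm
        · rw [dif_neg hx]
          exact (hb1 ⟨x, key _ hx⟩).symm
      · funext x
        simp only [F]
        by_cases hx : c.2 x = true
        · rw [dif_pos hx]
          exact (ha2 ⟨x, hx⟩).symm
        · rw [dif_neg hx]
          exact (hb2 ⟨x, key _ hx⟩).symm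
  have h1 := Nat.card_le_card_of_surjective F hF
  rw [Nat.card_sigma] at h1
  unfold hom
  refine h1.trans (le_of_eq ?_)
  apply Finset.sum_congr rfl
  intro c _
  exact Nat.card_prod _ _

theorem hom_add_ge (H X Y : BiGraph) : hom H X ≤ hom H (addG X Y) := by
  unfold hom
  apply Nat.card_le_card_of_injective
    (fun (f : Hm H X) => (⟨(fun x => Sum.inl (f.1.1 x), fun y => Sum.inl (f.1.2 y)),
      fun x y hxy => f.2 x y hxy⟩ : Hm H (addG X Y)))
  rintro ⟨⟨f1, f2⟩, hf⟩ ⟨⟨g1, g2⟩, hg⟩ h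
  have h1 := congrArg (fun q => q.1.1) h
  have h2 := congrArg (fun q => q.1.2) h
  simp only at h1 h2
  apply Subtype.ext
  apply Prod.ext
  · funext x
    exact Sum.inl.inj (congrFun h1 x)
  · funext x
    exact Sum.inl.inj (congrFun h2 x)

theorem hom_add_ge' (H X Y : BiGraph) : hom H Y ≤ hom H (addG X Y) := by
  unfold hom
  apply Nat.card_le_card_of_injective
    (fun (f : Hm H Y) => (⟨(fun x => Sum.inr (f.1.1 x), fun y => Sum.inr (f.1.2 y)),
      fun x y hxy => f.2 x y hxy⟩ : Hm H (addG X Y)))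
  rintro ⟨⟨f1, f2⟩, hf⟩ ⟨⟨g1, g2⟩, hg⟩ h
  have h1 := congrArg (fun q => q.1.1) h
  have h2 := congrArg (fun q => q.1.2) h
  simp only at h1 h2
  apply Subtype.ext
  apply Prod.ext
  · funext x
    exact Sum.inr.inj (congrFun h1 x)
  · funext x
    exact Sum.inr.inj (congrFun h2 x)

/-- `Y` is dominated by `X`: up to constants `Y n` has at most as many copies of every graph. -/
def Dom (Y X : ℕ → BiGraph) : Prop := ∀ H, ∃ C : ℕ, ∀ n, hom H (Y n) ≤ C * hom H (X n)

theorem Dom.refl (X : ℕ → BiGraph) : Dom X X := fun H => ⟨1, fun n => by rw [one_mul]⟩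

open Classical in
theorem Dom.add {X Y Z : ℕ → BiGraph} (hY : Dom Y X) (hZ : Dom Z X) :
    Dom (fun n => addG (Y n) (Z n)) X := by
  intro H
  have h1 : ∀ c : {c : (H.V₁ → Bool) × (H.V₂ → Bool) // Closed H c},
      ∃ C : ℕ, ∀ n, hom (subG H c.1 true) (Y n) ≤ C * hom (subG H c.1 true) (X n) :=
    fun c => hY _
  have h2 : ∀ c : {c : (H.V₁ → Bool) × (H.V₂ → Bool) // Closed H c},
      ∃ C : ℕ, ∀ n, hom (subG H c.1 false) (Z n) ≤ C * hom (subG H c.1 false) (X n) :=
    fun c => hZ _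
  choose C1 hC1 using h1
  choose C2 hC2 using h2
  refine ⟨∑ c, C1 c * C2 c, fun n => ?_⟩
  refine (hom_add_le H (Y n) (Z n)).trans ?_
  rw [Finset.sum_mul]
  apply Finset.sum_le_sum
  intro c _
  calc hom (subG H c.1 true) (Y n) * hom (subG H c.1 false) (Z n)
      ≤ (C1 c * hom (subG H c.1 true) (X n)) * (C2 c * hom (subG H c.1 false) (X n)) :=
        Nat.mul_le_mul (hC1 c n) (hC2 c n)
    _ = (C1 c * C2 c) * (hom (subG H c.1 true) (X n) * hom (subG H c.1 false) (X n)) := by ring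
    _ ≤ _ := Nat.mul_le_mul_left _ (hom_sub_mul H (X n) c.1 c.2)

end Pool.Agent.X330.QL
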