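import Mathlib
import Pool.Agent.X330.QL.Union

set_option autoImplicit false

namespace Pool.Agent.X330.QL

open Matrix

open Classical in
/-- The biadjacency matrix. -/
noncomputable def bi (G : BiGraph) : Matrix G.V₁ G.V₂ ℂ :=
  Matrix.of fun x y => if G.E x y then 1 else 0

noncomputable def gram (G : BiGraph) : Matrix G.V₁ G.V₁ ℂ := bi G * (bi G)ᵀ

open Classical in
noncomputable def DD (G : BiGraph) (y : ℂ) : ℂ := (Matrix.scalar G.V₁ y - gram G).det

theorem DD_eq (G : BiGraph) (y : ℂ) [inst : DecidableEq G.V₁] :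
    DD G y = (Matrix.scalar G.V₁ y - gram G).det := by
  have h : inst = fun a b => Classical.propDecidable (a = b) := Subsingleton.elim _ _
  subst h
  rfl

theorem adjM_eq (G : BiGraph) : adjM G = Matrix.fromBlocks 0 (bi G) (bi G)ᵀ 0 := rfl

open Classical in
theorem eval_charpoly_adjM (G : BiGraph) (x : ℂ) (hx : x ≠ 0) :
    (adjM G).charpoly.eval x =
      x ^ Fintype.card G.V₂ * ((x⁻¹) ^ Fintype.card G.V₁ * DD G (x ^ 2)) := by
  rw [Matrix.eval_charpoly, adjM_eq]
  have h1 : Matrix.scalar (G.V₁ ⊕ G.V₂) x - Matrix.fromBlocks 0 (bi G) (bi G)ᵀ 0 =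
      Matrix.fromBlocks (Matrix.scalar G.V₁ x) (-(bi G)) (-(bi G)ᵀ) (Matrix.scalar G.V₂ x) := by
    ext i j
    rcases i with i | i <;> rcases j with j | j <;> simp [Matrix.diagonal_apply]
  rw [h1]
  let _ : Invertible (Matrix.scalar G.V₂ x) :=
    ⟨Matrix.scalar G.V₂ x⁻¹, by rw [← map_mul, inv_mul_cancel₀ hx, map_one],
      by rw [← map_mul, mul_inv_cancel₀ hx, map_one]⟩
  rw [Matrix.det_fromBlocks₂₂]
  have h2 : ⅟(Matrix.scalar G.V₂ x) = Matrix.scalar G.V₂ x⁻¹ := rfl
  rw [h2]
  have h3 : (Matrix.scalar G.V₂ x).det = x ^ Fintype.card G.V₂ := by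
    rw [Matrix.scalar_apply, Matrix.det_diagonal, Finset.prod_const, Finset.card_univ]
  have h4 : Matrix.scalar G.V₁ x - -(bi G) * Matrix.scalar G.V₂ x⁻¹ * -(bi G)ᵀ =
      x⁻¹ • (Matrix.scalar G.V₁ (x ^ 2) - gram G) := by
    unfold gram
    have e1 : -(bi G) * Matrix.scalar G.V₂ x⁻¹ * -(bi G)ᵀ = x⁻¹ • (bi G * (bi G)ᵀ) := by
      have : Matrix.scalar G.V₂ x⁻¹ = x⁻¹ • (1 : Matrix G.V₂ G.V₂ ℂ) := by
        rw [Matrix.scalar_apply, Matrix.smul_one_eq_diagonal]
      rw [this, Matrix.mul_smul, Matrix.mul_one, Matrix.smul_mul, Matrix.neg_mul, Matrix.mul_neg,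
        neg_neg]
    have e2 : Matrix.scalar G.V₁ x = x⁻¹ • Matrix.scalar G.V₁ (x ^ 2) := by
      rw [Matrix.scalar_apply, Matrix.scalar_apply, ← Matrix.diagonal_smul]
      congr 1
      funext i
      simp only [Pi.smul_apply, smul_eq_mul]
      field_simp
    rw [e1, e2, smul_sub]
  rw [h3, h4, Matrix.det_smul]
  rfl

theorem spec_eq_of (G G' : BiGraph) (h1 : Fintype.card G.V₁ = Fintype.card G'.V₁)
    (h2 : Fintype.card G.V₂ = Fintype.card G'.V₂) (S : Set ℂ) (hS : S.Finite)
    (h : ∀ y, y ∉ S → DD G y = DD G' y) : spec G = spec G' := by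
  classical
  have key : (adjM G).charpoly = (adjM G').charpoly := by
    apply Polynomial.eq_of_infinite_eval_eq
    have hfin : ({x : ℂ | x ^ 2 ∈ S} ∪ {0}).Finite := by
      apply Set.Finite.union _ (Set.finite_singleton 0)
      have : {x : ℂ | x ^ 2 ∈ S} = ⋃ s ∈ S, {x : ℂ | x ^ 2 = s} := by
        ext x; simp
      rw [this]
      apply Set.Finite.biUnion hS
      intro s _
      have h3 : {x : ℂ | x ^ 2 = s} ⊆
          ((Polynomial.nthRoots 2 s).toFinset : Set ℂ) := by
        intro x hx
        rw [Finset.mem_coe, Multiset.mem_toFinset, Polynomial.mem_nthRoots (by norm_num)]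
        exact hx
      exact (Finset.finite_toSet _).subset h3
    refine hfin.infinite_compl.mono ?_
    intro x hx
    rw [Set.mem_compl_iff, Set.mem_union, not_or] at hx
    have hx0 : x ≠ 0 := hx.2
    have hxS : x ^ 2 ∉ S := hx.1
    show (adjM G).charpoly.eval x = (adjM G').charpoly.eval x
    have e1 := eval_charpoly_adjM G x hx0
    have e2 := eval_charpoly_adjM G' x hx0
    rw [h _ hxS, h1, h2] at e1
    exact e1.trans e2.symm
  unfold spec
  congr 1

theorem DD_add (X Y : BiGraph) (y : ℂ) : DD (addG X Y) y = DD X y * DD Y y := by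
  classical
  have h1 : gram (addG X Y) = Matrix.fromBlocks (gram X) 0 0 (gram Y) := by
    unfold gram
    have hb : bi (addG X Y) = Matrix.fromBlocks (bi X) 0 0 (bi Y) := by
      ext i j
      rcases i with i | i <;> rcases j with j | j
      · rfl
      · show (if addE X Y (Sum.inl i) (Sum.inr j) then (1 : ℂ) else 0) = 0
        rw [if_neg]; exact id
      · show (if addE X Y (Sum.inr i) (Sum.inl j) then (1 : ℂ) else 0) = 0
        rw [if_neg]; exact id
      · rfl
    rw [hb]
    show Matrix.fromBlocks (bi X) 0 0 (bi Y) * (Matrix.fromBlocks (bi X) 0 0 (bi Y))ᵀ = _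
    rw [Matrix.fromBlocks_transpose, Matrix.fromBlocks_multiply]
    simp
  have h2 : DD (addG X Y) y = (Matrix.scalar (X.V₁ ⊕ Y.V₁) y -
      Matrix.fromBlocks (gram X) 0 0 (gram Y)).det := by
    rw [← h1]
    exact @DD_eq (addG X Y) y (instDecidableEqSum)
  rw [h2, DD_eq X y, DD_eq Y y]
  have h3 : Matrix.scalar (X.V₁ ⊕ Y.V₁) y - Matrix.fromBlocks (gram X) 0 0 (gram Y) =
      Matrix.fromBlocks (Matrix.scalar X.V₁ y - gram X) 0 0 (Matrix.scalar Y.V₁ y - gram Y) := by
    ext i j
    rcases i with i | i <;> rcases j with j | j <;> simp [Matrix.diagonal_apply]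
  rw [h3, Matrix.det_fromBlocks_zero₂₁]

/-- Isolated vertices in the second class. -/
def isoG (k : ℕ) : BiGraph where
  V₁ := Empty
  V₂ := Fin k
  E := fun _ _ => False

theorem DD_iso (k : ℕ) (y : ℂ) : DD (isoG k) y = 1 := by
  classical
  have : IsEmpty (isoG k).V₁ := inferInstanceAs (IsEmpty Empty)
  rw [DD_eq (isoG k) y]
  exact Matrix.det_isEmpty

/-- A disjoint union of stars with centres in the first class. -/
def starG (ι : Type) [Fintype ι] (s : ι → ℕ) : BiGraph where
  V₁ := ι
  V₂ := Σ i, Fin (s i)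
  E := fun i p => p.1 = i

open Classical in
theorem star_sum (ι : Type) [Fintype ι] (s : ι → ℕ) (i j : ι) :
    ∑ p : (Σ i, Fin (s i)), (if p.1 = i then (1 : ℂ) else 0) * (if p.1 = j then (1 : ℂ) else 0)
      = if i = j then (s i : ℂ) else 0 := by
  rw [Fintype.sum_sigma]
  by_cases hij : i = j
  · subst hij
    rw [if_pos rfl, Finset.sum_eq_single i]
    · simp
    · intro b _ hb
      simp [hb]
    · intro h; exact absurd (Finset.mem_univ _) h
  · rw [if_neg hij]
    apply Finset.sum_eq_zero
    intro b _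
    by_cases hb : b = i
    · subst hb
      simp [hij]
    · simp [hb]

theorem DD_star (ι : Type) [Fintype ι] (s : ι → ℕ) (y : ℂ) :
    DD (starG ι s) y = ∏ i, (y - s i) := by
  classical
  have h1 : gram (starG ι s) = Matrix.diagonal (fun i => (s i : ℂ)) := by
    ext i j
    refine (star_sum ι s i j).trans ?_
    rw [Matrix.diagonal_apply]
  have h2 : DD (starG ι s) y = (Matrix.scalar ι y - Matrix.diagonal (fun i => (s i : ℂ))).det := by
    rw [← h1]
    exact DD_eq (starG ι s) y
  rw [h2, Matrix.scalar_apply, Matrix.diagonal_sub, Matrix.det_diagonal]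

open Configuration Classical in
theorem inc_sum (P L : Type) [Membership P L] [Fintype P] [Fintype L] [ProjectivePlane P L]
    (p p' : P) :
    ∑ l : L, (if p ∈ l then (1 : ℂ) else 0) * (if p' ∈ l then (1 : ℂ) else 0) =
      if p = p' then (ProjectivePlane.order P L : ℂ) + 1 else 1 := by
  have h2 : ∀ l : L, (if p ∈ l then (1 : ℂ) else 0) * (if p' ∈ l then (1 : ℂ) else 0) =
      if p ∈ l ∧ p' ∈ l then 1 else 0 := by
    intro l
    by_cases h : p ∈ l <;> by_cases h' : p' ∈ l <;> simp [h, h']
  simp only [h2]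
  rw [Finset.sum_boole]
  split_ifs with hpp
  · subst hpp
    have h3 := ProjectivePlane.lineCount_eq (P := P) (L := L) p
    rw [lineCount, Nat.card_eq_fintype_card, Fintype.card_subtype] at h3
    simp only [and_self]
    rw [h3]
    push_cast
    rfl
  · obtain ⟨l, hl, hu⟩ := HasLines.existsUnique_line P L p p' hpp
    have h3 : Finset.univ.filter (fun l : L => p ∈ l ∧ p' ∈ l) = {l} := by
      ext l'
      rw [Finset.mem_filter, Finset.mem_singleton]
      constructor
      · rintro ⟨-, h⟩
        exact hu l' h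
      · rintro rfl
        exact ⟨Finset.mem_univ _, hl⟩
    rw [h3]
    simp

open Configuration in
theorem DD_inc (P L : Type) [Membership P L] [Fintype P] [Fintype L] [ProjectivePlane P L]
    (y : ℂ) (hy : y ≠ (ProjectivePlane.order P L : ℂ)) :
    DD (incidenceGraph P L) y = (y - ProjectivePlane.order P L) ^ (Fintype.card P) *
      (1 - (Fintype.card P : ℂ) * (y - ProjectivePlane.order P L)⁻¹) := by
  classical
  set r : ℂ := (ProjectivePlane.order P L : ℂ) with hr
  have hyr : y - r ≠ 0 := sub_ne_zero.2 hy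
  have h1 : gram (incidenceGraph P L) = Matrix.of fun (p p' : P) => if p = p' then r + 1 else 1 := by
    ext p p'
    refine (inc_sum P L p p').trans ?_
    rw [Matrix.of_apply]
  have h2 : DD (incidenceGraph P L) y = (Matrix.scalar P y -
      Matrix.of fun (p p' : P) => if p = p' then r + 1 else 1).det := by
    rw [← h1]
    exact DD_eq (incidenceGraph P L) y
  have h3 : (Matrix.scalar P y - Matrix.of fun (p p' : P) => if p = p' then r + 1 else 1) =
      (y - r) • (1 + Matrix.replicateCol Unit (fun _ : P => -(y - r)⁻¹) *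
        Matrix.replicateRow Unit (fun _ : P => (1 : ℂ))) := by
    ext p p'
    rw [Matrix.sub_apply, Matrix.smul_apply, Matrix.add_apply, Matrix.scalar_apply,
      Matrix.diagonal_apply, Matrix.one_apply, Matrix.of_apply]
    have e : (Matrix.replicateCol Unit (fun _ : P => -(y - r)⁻¹) *
        Matrix.replicateRow Unit (fun _ : P => (1 : ℂ))) p p' = -(y - r)⁻¹ := by
      simp [Matrix.mul_apply]
    rw [e]
    split_ifs
    · rw [smul_eq_mul]
      field_simp
      ring
    · rw [smul_eq_mul]
      field_simp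
      ring
  rw [h2, h3, Matrix.det_smul, Matrix.det_one_add_replicateCol_mul_replicateRow]
  congr 1
  rw [dotProduct]
  simp
  ring

end Pool.Agent.X330.QL
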