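import Mathlib
import Pool.Agent.X330.QL.Spec

set_option autoImplicit false

namespace Pool.Agent.X330.QL

open Filter Topology Pool.Agent.H279R3.LogConv Configuration

open scoped LinearAlgebra.Projectivization in
theorem exists_plane (n : ℕ) (hn : n ≠ 0) :
    ∃ (P L : Type) (_ : Membership P L) (_ : Fintype P) (_ : Fintype L)
      (_ : ProjectivePlane P L), ProjectivePlane.order P L = 2 ^ n := by
  classical
  have : Fact (Nat.Prime 2) := ⟨Nat.prime_two⟩
  let K := GaloisField 2 n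
  have hcard : Nat.card K = 2 ^ n := GaloisField.card 2 n hn
  have : Finite K := Nat.finite_of_card_ne_zero (by rw [hcard]; positivity)
  have : Fintype (ℙ K (Fin 3 → K)) := Fintype.ofFinite _
  have hcP : Nat.card (ℙ K (Fin 3 → K)) = ∑ i ∈ Finset.range 3, Nat.card K ^ i := by
    apply Projectivization.card_of_finrank
    simp
  refine ⟨ℙ K (Fin 3 → K), ℙ K (Fin 3 → K), inferInstance, inferInstance, inferInstance,
    inferInstance, ?_⟩
  have h1 := ProjectivePlane.card_points (ℙ K (Fin 3 → K)) (ℙ K (Fin 3 → K))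
  rw [Nat.card_eq_fintype_card, h1, hcard] at hcP
  simp only [Finset.sum_range_succ, Finset.sum_range_zero, pow_zero, pow_one, zero_add] at hcP
  set m := ProjectivePlane.order (ℙ K (Fin 3 → K)) (ℙ K (Fin 3 → K)) with hm
  set r := 2 ^ n with hr
  rcases lt_trichotomy m r with h | h | h
  · nlinarith
  · exact h
  · nlinarith

/-- `G` is the incidence graph of a projective plane of order `m`. -/
def IsPl (G : BiGraph) (m : ℕ) : Prop :=
  ∃ (P L : Type) (_ : Membership P L) (_ : Fintype P) (_ : Fintype L)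
      (_ : ProjectivePlane P L), ProjectivePlane.order P L = m ∧ G = incidenceGraph P L

theorem IsPl.card1 {G : BiGraph} {m : ℕ} (h : IsPl G m) : Fintype.card G.V₁ = m ^ 2 + m + 1 := by
  obtain ⟨P, L, _, _, _, _, hm, rfl⟩ := h
  rw [← hm]
  exact ProjectivePlane.card_points P L

theorem IsPl.card2 {G : BiGraph} {m : ℕ} (h : IsPl G m) : Fintype.card G.V₂ = m ^ 2 + m + 1 := by
  obtain ⟨P, L, _, _, _, _, hm, rfl⟩ := h
  rw [← hm]
  exact ProjectivePlane.card_lines P L

theorem IsPl.pos {G : BiGraph} {m : ℕ} (h : IsPl G m) : 1 ≤ m := by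
  obtain ⟨P, L, _, _, _, _, hm, rfl⟩ := h
  rw [← hm]
  exact (ProjectivePlane.one_lt_order P L).le

theorem IsPl.DD {G : BiGraph} {m : ℕ} (h : IsPl G m) (y : ℂ) (hy : y ≠ (m : ℂ)) :
    DD G y = (y - m) ^ (m ^ 2 + m + 1) * (1 - ((m ^ 2 + m + 1 : ℕ) : ℂ) * (y - m)⁻¹) := by
  have h1 := h.card1
  obtain ⟨P, L, _, _, _, _, hm, rfl⟩ := h
  subst hm
  have h2 := DD_inc P L y hy
  have h3 : Fintype.card P = ProjectivePlane.order P L ^ 2 + ProjectivePlane.order P L + 1 := h1
  rw [h3] at h2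
  exact h2

/-- `κ(H) = 2 |V(H)| - r(H)` is the exponent of `H` in projective planes. -/
noncomputable def kap (H : BiGraph) : ℕ := 2 * nV H - rr H

theorem kap_add (H : BiGraph) : kap H + rr H = 2 * nV H := by
  have := (kappa H).1
  unfold kap
  omega

theorem pl_bound (H : BiGraph) : ∃ C : ℕ, ∀ (G : BiGraph) (m : ℕ), IsPl G m →
    hom H G ≤ C * m ^ kap H ∧ m ^ kap H ≤ C * hom H G := by
  obtain ⟨-, C, hC⟩ := kappa H
  refine ⟨C, ?_⟩
  rintro G m ⟨P, L, _, _, _, _, hm, rfl⟩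
  rw [hom_eq P L H, ← hm]
  exact hC (toPlane P L)

theorem dom_pl (X Y : ℕ → BiGraph) (q r : ℕ → ℕ) (hX : ∀ n, IsPl (X n) (q n))
    (hY : ∀ n, IsPl (Y n) (r n)) (hqr : ∀ n, r n ≤ q n) : Dom Y X := by
  intro H
  obtain ⟨C, hC⟩ := pl_bound H
  refine ⟨C * C, fun n => ?_⟩
  calc hom H (Y n) ≤ C * (r n) ^ kap H := (hC _ _ (hY n)).1
    _ ≤ C * (q n) ^ kap H := Nat.mul_le_mul_left _ (Nat.pow_le_pow_left (hqr n) _)
    _ ≤ C * (C * hom H (X n)) := Nat.mul_le_mul_left _ (hC _ _ (hX n)).2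
    _ = _ := by ring

theorem dom_iso (X : ℕ → BiGraph) (k : ℕ → ℕ) (A : ℕ)
    (hk : ∀ n, k n ≤ A * Fintype.card (X n).V₂) : Dom (fun n => isoG (k n)) X := by
  intro H
  rcases isEmpty_or_nonempty H.V₁ with he | he
  · refine ⟨A ^ Fintype.card H.V₂, fun n => ?_⟩
    have h1 : hom H (isoG (k n)) ≤ k n ^ Fintype.card H.V₂ := by
      unfold hom
      have h2 : Nat.card (H.V₂ → Fin (k n)) = k n ^ Fintype.card H.V₂ := by
        classical
        rw [Nat.card_eq_fintype_card, Fintype.card_fun, Fintype.card_fin]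
      rw [← h2]
      apply Nat.card_le_card_of_injective (fun (f : Hm H (isoG (k n))) => f.1.2)
      rintro ⟨⟨f1, f2⟩, hf⟩ ⟨⟨g1, g2⟩, hg⟩ h
      simp only at h
      apply Subtype.ext
      apply Prod.ext
      · funext x
        exact he.elim x
      · exact h
    have h3 : Fintype.card (X n).V₂ ^ Fintype.card H.V₂ ≤ hom H (X n) := by
      unfold hom
      have h2 : Nat.card (H.V₂ → (X n).V₂) = Fintype.card (X n).V₂ ^ Fintype.card H.V₂ := by
        classical
        rw [Nat.card_eq_fintype_card, Fintype.card_fun]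
      rw [← h2]
      apply Nat.card_le_card_of_injective (fun (f : H.V₂ → (X n).V₂) =>
        (⟨(fun x => he.elim x, f), fun x => he.elim x⟩ : Hm H (X n)))
      intro f g h
      exact congrArg (fun q => q.1.2) h
    calc hom H (isoG (k n)) ≤ k n ^ Fintype.card H.V₂ := h1
      _ ≤ (A * Fintype.card (X n).V₂) ^ Fintype.card H.V₂ := Nat.pow_le_pow_left (hk n) _
      _ = A ^ Fintype.card H.V₂ * Fintype.card (X n).V₂ ^ Fintype.card H.V₂ := mul_pow _ _ _
      _ ≤ _ := Nat.mul_le_mul_left _ h3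
  · refine ⟨0, fun n => ?_⟩
    have : IsEmpty (Hm H (isoG (k n))) := by
      constructor
      rintro ⟨⟨f1, f2⟩, hf⟩
      obtain ⟨x⟩ := he
      exact (f1 x).elim
    have h2 : hom H (isoG (k n)) = 0 := by
      unfold hom
      exact Nat.card_of_isEmpty
    rw [h2]
    exact Nat.zero_le _

theorem hom_K2_add (X Y : BiGraph) : hom K2 (addG X Y) ≤ hom K2 X + hom K2 Y := by
  unfold hom
  rw [← Nat.card_sum]
  let F : Hm K2 X ⊕ Hm K2 Y → Hm K2 (addG X Y) := fun s => match s with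
    | Sum.inl g => ⟨(fun x => Sum.inl (g.1.1 x), fun y => Sum.inl (g.1.2 y)), fun x y h => g.2 x y h⟩
    | Sum.inr g => ⟨(fun x => Sum.inr (g.1.1 x), fun y => Sum.inr (g.1.2 y)), fun x y h => g.2 x y h⟩
  apply Nat.card_le_card_of_surjective F
  rintro ⟨⟨f1, f2⟩, hf⟩
  have h : addE X Y (f1 ()) (f2 ()) := hf () () trivial
  rcases h1 : f1 () with a | a
  · rcases h2 : f2 () with b | b
    · rw [h1, h2] at h
      refine ⟨Sum.inl ⟨(fun _ => a, fun _ => b), fun _ _ _ => h⟩, ?_⟩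
      apply Subtype.ext
      apply Prod.ext
      · funext x
        exact h1.symm
      · funext x
        exact h2.symm
    · rw [h1, h2] at h
      exact h.elim
  · rcases h2 : f2 () with b | b
    · rw [h1, h2] at h
      exact h.elim
    · rw [h1, h2] at h
      refine ⟨Sum.inr ⟨(fun _ => a, fun _ => b), fun _ _ _ => h⟩, ?_⟩
      apply Subtype.ext
      apply Prod.ext
      · funext x
        exact h1.symm
      · funext x
        exact h2.symm

theorem hom_K2_star (ι : Type) [Fintype ι] (s : ι → ℕ) : hom K2 (starG ι s) ≤ ∑ i, s i := by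
  unfold hom
  have h1 : Nat.card (Σ i, Fin (s i)) = ∑ i, s i := by
    rw [Nat.card_eq_fintype_card, Fintype.card_sigma]
    simp
  rw [← h1]
  apply Nat.card_le_card_of_injective (fun (f : Hm K2 (starG ι s)) => f.1.2 ())
  rintro ⟨⟨f1, f2⟩, hf⟩ ⟨⟨g1, g2⟩, hg⟩ h
  simp only at h
  have e1 : (f2 ()).1 = f1 () := hf () () trivial
  have e2 : (g2 ()).1 = g1 () := hg () () trivial
  apply Subtype.ext
  apply Prod.ext
  · funext x
    show f1 () = g1 ()
    rw [← e1, ← e2, h]
  · funext x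
    exact h

/-- The star with `t` leaves in the second class. -/
def St (t : ℕ) : BiGraph where
  V₁ := Unit
  V₂ := Fin t
  E := fun _ _ => True

theorem hom_St_star (t : ℕ) (ι : Type) [Fintype ι] (s : ι → ℕ) (i : ι) :
    s i ^ t ≤ hom (St t) (starG ι s) := by
  unfold hom
  have h1 : Nat.card (Fin t → Fin (s i)) = s i ^ t := by
    rw [Nat.card_eq_fintype_card, Fintype.card_fun, Fintype.card_fin, Fintype.card_fin]
  rw [← h1]
  apply Nat.card_le_card_of_injective (fun (f : Fin t → Fin (s i)) =>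
    (⟨(fun _ => i, fun y => ⟨i, f y⟩), fun _ _ _ => rfl⟩ : Hm (St t) (starG ι s)))
  intro f g h
  have h2 := congrArg (fun q => q.1.2) h
  simp only at h2
  funext y
  have h3 := congrFun h2 y
  exact eq_of_heq (Sigma.mk.inj h3).2

/-! ### Values of `r` -/

theorem star_collapse (t : ℕ) (H' : BiGraph) (h : IsCollapse (St t) H') :
    Fintype.card H'.V₂ ≤ nE H' ∧ nV H' ≤ 1 + Fintype.card H'.V₂ ∧ Fintype.card H'.V₂ ≤ t := by
  obtain ⟨f₁, f₂, h1, h2, h3, h4⟩ := h
  refine ⟨?_, ?_, ?_⟩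
  · unfold nE
    rw [← Nat.card_eq_fintype_card]
    apply Nat.card_le_card_of_injective (fun (y : H'.V₂) =>
      (⟨(f₁ (), y), by
        obtain ⟨z, rfl⟩ := h2 y
        exact h3 () z trivial⟩ : {p : H'.V₁ × H'.V₂ // H'.E p.1 p.2}))
    intro y y' h
    exact congrArg (fun q => q.1.2) h
  · unfold nV
    have := Fintype.card_le_of_surjective f₁ h1
    have h5 : Fintype.card (St t).V₁ = 1 := Fintype.card_unit
    omega
  · have := Fintype.card_le_of_surjective f₂ h2
    have h5 : Fintype.card (St t).V₂ = t := Fintype.card_fin t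
    omega

theorem rr_St (t : ℕ) : t ≤ rr (St t) := by
  have hne : {k | ∃ H' : BiGraph, IsCollapse (St t) H' ∧
      k = nE H' + 2 * (nV (St t) - nV H')}.Nonempty := ⟨_, St t, self_collapse _, rfl⟩
  obtain ⟨H₀, hc₀, hr₀⟩ := Nat.sInf_mem hne
  obtain ⟨h1, h2, h3⟩ := star_collapse t H₀ hc₀
  have h4 : nV (St t) = 1 + t := by
    show Fintype.card Unit + Fintype.card (Fin t) = 1 + t
    simp
  change rr (St t) = _ at hr₀
  omega

theorem rr_K2 : rr K2 = 1 := by
  have hne : {k | ∃ H' : BiGraph, IsCollapse K2 H' ∧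
      k = nE H' + 2 * (nV K2 - nV H')}.Nonempty := ⟨_, K2, self_collapse _, rfl⟩
  have hE : nE K2 = 1 := by
    unfold nE
    have : Unique {p : K2.V₁ × K2.V₂ // K2.E p.1 p.2} :=
      ⟨⟨⟨((), ()), trivial⟩⟩, fun a => rfl⟩
    exact Nat.card_unique
  have hV : nV K2 = 2 := by
    show Fintype.card Unit + Fintype.card Unit = 2
    simp
  have hle : rr K2 ≤ 1 := by
    have := Nat.sInf_le (s := {k | ∃ H' : BiGraph, IsCollapse K2 H' ∧
      k = nE H' + 2 * (nV K2 - nV H')}) ⟨K2, self_collapse _, rfl⟩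
    change rr K2 ≤ _ at this
    omega
  have hge : 1 ≤ rr K2 := by
    obtain ⟨H₀, hc₀, hr₀⟩ := Nat.sInf_mem hne
    change rr K2 = _ at hr₀
    have hnV := nV_le K2 H₀ hc₀
    obtain ⟨f₁, f₂, h1, h2, h3, h4⟩ := hc₀
    have : 0 < nE H₀ := by
      unfold nE
      have : Nonempty {p : H₀.V₁ × H₀.V₂ // H₀.E p.1 p.2} := ⟨⟨(f₁ (), f₂ ()), h3 () () trivial⟩⟩
      exact Nat.card_pos
    omega
  omega

end Pool.Agent.X330.QL
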