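import Mathlib
import Pool.Agent.X330.QL.Planes

set_option autoImplicit false

namespace Pool.Agent.X330.QL

open Filter Topology

theorem log_lim (h m : ℕ → ℕ) (e C : ℕ) (hm : Tendsto m atTop atTop)
    (h1 : ∀ n, h n ≤ C * m n ^ e) (h2 : ∀ n, m n ^ e ≤ C * h n) :
    Tendsto (fun n => Real.log (h n) / Real.log (m n)) atTop (𝓝 (e : ℝ)) := by
  have hlogm : Tendsto (fun n => Real.log (m n)) atTop atTop :=
    Real.tendsto_log_atTop.comp (tendsto_natCast_atTop_atTop.comp hm)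
  have hlim : Tendsto (fun n => Real.log C / Real.log (m n)) atTop (𝓝 0) :=
    Filter.Tendsto.const_div_atTop hlogm _
  have hlo : Tendsto (fun n => (e : ℝ) - Real.log C / Real.log (m n)) atTop (𝓝 (e : ℝ)) := by
    simpa using (tendsto_const_nhds (x := (e : ℝ))).sub hlim
  have hhi : Tendsto (fun n => (e : ℝ) + Real.log C / Real.log (m n)) atTop (𝓝 (e : ℝ)) := by
    simpa using (tendsto_const_nhds (x := (e : ℝ))).add hlim
  have hev : ∀ᶠ n in atTop, 2 ≤ m n := hm.eventually_ge_atTop 2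
  refine tendsto_of_tendsto_of_tendsto_of_le_of_le' hlo hhi ?_ ?_
  · filter_upwards [hev] with n hn
    have hmpos : (0 : ℝ) < m n := by exact_mod_cast (by omega : 0 < m n)
    have hlpos : 0 < Real.log (m n) := Real.log_pos (by exact_mod_cast (by omega : 1 < m n))
    have hpp : 0 < m n ^ e := pow_pos (by omega) _
    have hCh : 0 < C * h n := lt_of_lt_of_le hpp (h2 n)
    have hC : 0 < C := Nat.pos_of_mul_pos_right hCh
    have hh : 0 < h n := Nat.pos_of_mul_pos_left hCh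
    have key : (e : ℝ) * Real.log (m n) ≤ Real.log C + Real.log (h n) := by
      rw [← Real.log_pow, ← Real.log_mul (by exact_mod_cast hC.ne') (by exact_mod_cast hh.ne')]
      apply Real.log_le_log
      · exact_mod_cast hpp
      · exact_mod_cast h2 n
    rw [sub_le_iff_le_add, ← add_div, le_div_iff₀ hlpos]
    linarith
  · filter_upwards [hev] with n hn
    have hmpos : (0 : ℝ) < m n := by exact_mod_cast (by omega : 0 < m n)
    have hlpos : 0 < Real.log (m n) := Real.log_pos (by exact_mod_cast (by omega : 1 < m n))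
    have hpp : 0 < m n ^ e := pow_pos (by omega) _
    have hCh : 0 < C * h n := lt_of_lt_of_le hpp (h2 n)
    have hC : 0 < C := Nat.pos_of_mul_pos_right hCh
    have hh : 0 < h n := Nat.pos_of_mul_pos_left hCh
    have key : Real.log (h n) ≤ Real.log C + e * Real.log (m n) := by
      rw [← Real.log_pow, ← Real.log_mul (by exact_mod_cast hC.ne') (by positivity)]
      apply Real.log_le_log
      · exact_mod_cast hh
      · exact_mod_cast h1 n
    rw [div_le_iff₀ hlpos, add_mul, div_mul_cancel₀ _ hlpos.ne']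
    linarith


theorem exists_pl (n : ℕ) (hn : n ≠ 0) : ∃ G : BiGraph, IsPl G (2 ^ n) := by
  obtain ⟨P, L, i1, i2, i3, i4, h⟩ := exists_plane n hn
  exact ⟨incidenceGraph P L, P, L, i1, i2, i3, i4, h, rfl⟩

/-- The base of the construction: the planes have orders `t ^ 3` and `t ^ 2`. -/
def tt (n : ℕ) : ℕ := 2 ^ (n + 1)

theorem tt_ge (n : ℕ) : 2 ≤ tt n := by
  unfold tt
  rw [pow_succ]
  have : 1 ≤ 2 ^ n := Nat.one_le_two_pow
  omega

theorem tt_tendsto : Tendsto tt atTop atTop := by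
  apply tendsto_atTop_mono (fun n => ?_) tendsto_id
  show n ≤ tt n
  unfold tt
  exact (Nat.lt_two_pow_self).le.trans (Nat.pow_le_pow_right (by norm_num) (Nat.le_succ n))

noncomputable def Gq (n : ℕ) : BiGraph := (exists_pl (3 * (n + 1)) (by omega)).choose

theorem Gq_spec (n : ℕ) : IsPl (Gq n) (tt n ^ 3) := by
  have h := (exists_pl (3 * (n + 1)) (by omega)).choose_spec
  have e : tt n ^ 3 = 2 ^ (3 * (n + 1)) := by
    unfold tt
    rw [← pow_mul, mul_comm]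
  rw [e]
  exact h

noncomputable def Gr (n : ℕ) : BiGraph := (exists_pl (2 * (n + 1)) (by omega)).choose

theorem Gr_spec (n : ℕ) : IsPl (Gr n) (tt n ^ 2) := by
  have h := (exists_pl (2 * (n + 1)) (by omega)).choose_spec
  have e : tt n ^ 2 = 2 ^ (2 * (n + 1)) := by
    unfold tt
    rw [← pow_mul, mul_comm]
  rw [e]
  exact h

/-- The first sequence: a plane of order `t ^ 3`, a plane of order `t ^ 2` and isolated
vertices. -/
noncomputable def H1 (n : ℕ) : BiGraph :=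
  addG (addG (Gq n) (Gr n)) (isoG (tt n ^ 6 + tt n ^ 4 + tt n ^ 2))

theorem p0_ex (n : ℕ) : Nonempty (Gr n).V₁ := by
  apply Fintype.card_pos_iff.1
  rw [(Gr_spec n).card1]
  omega

noncomputable def p0 (n : ℕ) : (Gr n).V₁ := (p0_ex n).some

open Classical in
noncomputable def ss (n : ℕ) : (Gr n).V₁ → ℕ :=
  fun p => if p = p0 n then (tt n ^ 2 + 1) ^ 2 else tt n ^ 2

/-- The second sequence: a plane of order `t ^ 3` and stars. -/
noncomputable def H2 (n : ℕ) : BiGraph := addG (Gq n) (starG (Gr n).V₁ (ss n))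

open Classical in
theorem card_erase_p0 (n : ℕ) :
    ((Finset.univ : Finset (Gr n).V₁).erase (p0 n)).card = (tt n ^ 2) ^ 2 + tt n ^ 2 := by
  rw [Finset.card_erase_of_mem (Finset.mem_univ _), Finset.card_univ, (Gr_spec n).card1]
  omega

open Classical in
theorem sum_ss (n : ℕ) : ∑ p, ss n p =
    (tt n ^ 2 + 1) ^ 2 + ((tt n ^ 2) ^ 2 + tt n ^ 2) * tt n ^ 2 := by
  rw [← Finset.add_sum_erase Finset.univ (ss n) (Finset.mem_univ (p0 n)), ← card_erase_p0 n]
  congr 1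
  · unfold ss
    rw [if_pos rfl]
  · rw [← smul_eq_mul, ← Finset.sum_const]
    apply Finset.sum_congr rfl
    intro p hp
    unfold ss
    rw [if_neg (Finset.mem_erase.1 hp).1]

open Classical in
theorem prod_ss (n : ℕ) (y : ℂ) : ∏ p, (y - (ss n p : ℂ)) =
    (y - ((tt n ^ 2 + 1) ^ 2 : ℕ)) * (y - (tt n ^ 2 : ℕ)) ^ ((tt n ^ 2) ^ 2 + tt n ^ 2) := by
  rw [← Finset.mul_prod_erase Finset.univ (fun p => y - (ss n p : ℂ)) (Finset.mem_univ (p0 n)),
    ← card_erase_p0 n]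
  congr 1
  · unfold ss
    rw [if_pos rfl]
  · rw [← Finset.prod_const]
    apply Finset.prod_congr rfl
    intro p hp
    unfold ss
    rw [if_neg (Finset.mem_erase.1 hp).1]

theorem card_V1_H1 (n : ℕ) : Fintype.card (H1 n).V₁ =
    ((tt n ^ 3) ^ 2 + tt n ^ 3 + 1) + ((tt n ^ 2) ^ 2 + tt n ^ 2 + 1) := by
  have h : Fintype.card (H1 n).V₁ =
      Fintype.card (Gq n).V₁ + Fintype.card (Gr n).V₁ + Fintype.card Empty := by
    show Fintype.card (((Gq n).V₁ ⊕ (Gr n).V₁) ⊕ Empty) = _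
    rw [Fintype.card_sum, Fintype.card_sum]
  rw [h, (Gq_spec n).card1, (Gr_spec n).card1, Fintype.card_empty, Nat.add_zero]

theorem card_V1_H2 (n : ℕ) : Fintype.card (H2 n).V₁ =
    ((tt n ^ 3) ^ 2 + tt n ^ 3 + 1) + ((tt n ^ 2) ^ 2 + tt n ^ 2 + 1) := by
  have h : Fintype.card (H2 n).V₁ =
      Fintype.card (Gq n).V₁ + Fintype.card (Gr n).V₁ := by
    show Fintype.card ((Gq n).V₁ ⊕ (Gr n).V₁) = _
    rw [Fintype.card_sum]
  rw [h, (Gq_spec n).card1, (Gr_spec n).card1]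

theorem card_V2_H1 (n : ℕ) : Fintype.card (H1 n).V₂ =
    ((tt n ^ 3) ^ 2 + tt n ^ 3 + 1) + ((tt n ^ 2) ^ 2 + tt n ^ 2 + 1) +
      (tt n ^ 6 + tt n ^ 4 + tt n ^ 2) := by
  have h : Fintype.card (H1 n).V₂ =
      Fintype.card (Gq n).V₂ + Fintype.card (Gr n).V₂ +
        Fintype.card (Fin (tt n ^ 6 + tt n ^ 4 + tt n ^ 2)) := by
    show Fintype.card (((Gq n).V₂ ⊕ (Gr n).V₂) ⊕ Fin (tt n ^ 6 + tt n ^ 4 + tt n ^ 2)) = _
    rw [Fintype.card_sum, Fintype.card_sum]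
  rw [h, (Gq_spec n).card2, (Gr_spec n).card2, Fintype.card_fin]

theorem card_V2_H2 (n : ℕ) : Fintype.card (H2 n).V₂ = Fintype.card (H1 n).V₂ := by
  have h : Fintype.card (H2 n).V₂ =
      Fintype.card (Gq n).V₂ + ∑ p, ss n p := by
    show Fintype.card ((Gq n).V₂ ⊕ (Σ i, Fin (ss n i))) = _
    rw [Fintype.card_sum, Fintype.card_sigma]
    simp
  rw [h, (Gq_spec n).card2, sum_ss, card_V2_H1]
  ring

theorem spec_H (n : ℕ) : spec (H1 n) = spec (H2 n) := by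
  apply spec_eq_of _ _ (by rw [card_V1_H1, card_V1_H2]) (card_V2_H2 n).symm
    {((tt n ^ 2 : ℕ) : ℂ)} (Set.finite_singleton _)
  intro y hy
  rw [Set.mem_singleton_iff] at hy
  unfold H1 H2
  rw [DD_add, DD_add, DD_iso, mul_one, DD_add, DD_star, prod_ss, (Gr_spec n).DD y hy]
  congr 1
  have h0 : y - ((tt n ^ 2 : ℕ) : ℂ) ≠ 0 := sub_ne_zero.2 hy
  rw [pow_succ]
  field_simp
  push_cast
  ring

/-! ### Sizes -/

theorem V1_bounds (n : ℕ) : (tt n) ^ 6 ≤ ((tt n ^ 3) ^ 2 + tt n ^ 3 + 1) +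
    ((tt n ^ 2) ^ 2 + tt n ^ 2 + 1) ∧ ((tt n ^ 3) ^ 2 + tt n ^ 3 + 1) +
    ((tt n ^ 2) ^ 2 + tt n ^ 2 + 1) ≤ 6 * (tt n) ^ 6 := by
  have h := tt_ge n
  have h3 : tt n ^ 3 ≤ tt n ^ 6 := Nat.pow_le_pow_right (by omega) (by omega)
  have h4 : tt n ^ 4 ≤ tt n ^ 6 := Nat.pow_le_pow_right (by omega) (by omega)
  have h2 : tt n ^ 2 ≤ tt n ^ 6 := Nat.pow_le_pow_right (by omega) (by omega)
  have h0 : 1 ≤ tt n ^ 6 := Nat.one_le_pow _ _ (by omega)
  have e1 : (tt n ^ 3) ^ 2 = tt n ^ 6 := by rw [← pow_mul]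
  have e2 : (tt n ^ 2) ^ 2 = tt n ^ 4 := by rw [← pow_mul]
  rw [e1, e2]
  omega

theorem V2_bounds (n : ℕ) : (tt n) ^ 6 ≤ Fintype.card (H1 n).V₂ ∧
    Fintype.card (H1 n).V₂ ≤ 9 * (tt n) ^ 6 := by
  have h := tt_ge n
  have h3 : tt n ^ 3 ≤ tt n ^ 6 := Nat.pow_le_pow_right (by omega) (by omega)
  have h4 : tt n ^ 4 ≤ tt n ^ 6 := Nat.pow_le_pow_right (by omega) (by omega)
  have h2 : tt n ^ 2 ≤ tt n ^ 6 := Nat.pow_le_pow_right (by omega) (by omega)
  have h0 : 1 ≤ tt n ^ 6 := Nat.one_le_pow _ _ (by omega)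
  have e1 : (tt n ^ 3) ^ 2 = tt n ^ 6 := by rw [← pow_mul]
  have e2 : (tt n ^ 2) ^ 2 = tt n ^ 4 := by rw [← pow_mul]
  rw [card_V2_H1, e1, e2]
  omega

theorem lim_V1_H1 : Tendsto (fun n => Real.log (Fintype.card (H1 n).V₁) / Real.log (tt n))
    atTop (𝓝 6) := by
  have := log_lim (fun n => Fintype.card (H1 n).V₁) tt 6 6 tt_tendsto
    (fun n => by rw [card_V1_H1]; exact (V1_bounds n).2)
    (fun n => by
      rw [card_V1_H1]
      have := (V1_bounds n).1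
      omega)
  exact_mod_cast this

theorem lim_V1_H2 : Tendsto (fun n => Real.log (Fintype.card (H2 n).V₁) / Real.log (tt n))
    atTop (𝓝 6) := by
  have := lim_V1_H1
  simp only [card_V1_H1] at this
  simp only [card_V1_H2]
  exact this

theorem lim_V2_H1 : Tendsto (fun n => Real.log (Fintype.card (H1 n).V₂) / Real.log (tt n))
    atTop (𝓝 6) := by
  have := log_lim (fun n => Fintype.card (H1 n).V₂) tt 6 9 tt_tendsto
    (fun n => (V2_bounds n).2)
    (fun n => by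
      have := (V2_bounds n).1
      omega)
  exact_mod_cast this

theorem lim_V2_H2 : Tendsto (fun n => Real.log (Fintype.card (H2 n).V₂) / Real.log (tt n))
    atTop (𝓝 6) := by
  simp only [card_V2_H2]
  exact lim_V2_H1

theorem log_tB (H G : BiGraph) (h : 0 < hom H G) (h1 : 0 < Fintype.card G.V₁)
    (h2 : 0 < Fintype.card G.V₂) : Real.log (tB H G) = Real.log (hom H G) -
      Fintype.card H.V₁ * Real.log (Fintype.card G.V₁) -
      Fintype.card H.V₂ * Real.log (Fintype.card G.V₂) := by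
  have h' : (0 : ℝ) < hom H G := by exact_mod_cast h
  have h1' : (0 : ℝ) < Fintype.card G.V₁ := by exact_mod_cast h1
  have h2' : (0 : ℝ) < Fintype.card G.V₂ := by exact_mod_cast h2
  unfold tB
  rw [Real.log_div h'.ne' (by positivity), Real.log_mul (by positivity) (by positivity),
    Real.log_pow, Real.log_pow]
  ring

theorem tB_lim (G : ℕ → BiGraph) (H : BiGraph) (e : ℝ)
    (h1 : Tendsto (fun n => Real.log (Fintype.card (G n).V₁) / Real.log (tt n)) atTop (𝓝 6))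
    (h2 : Tendsto (fun n => Real.log (Fintype.card (G n).V₂) / Real.log (tt n)) atTop (𝓝 6))
    (p1 : ∀ n, 0 < Fintype.card (G n).V₁) (p2 : ∀ n, 0 < Fintype.card (G n).V₂)
    (p : ∀ n, 0 < hom H (G n))
    (h : Tendsto (fun n => Real.log (hom H (G n)) / Real.log (tt n)) atTop (𝓝 e)) :
    Tendsto (fun n => Real.log (tB H (G n)) / Real.log (tt n)) atTop
      (𝓝 (e - Fintype.card H.V₁ * 6 - Fintype.card H.V₂ * 6)) := by
  refine ((h.sub (h1.const_mul (Fintype.card H.V₁ : ℝ))).sub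
    (h2.const_mul (Fintype.card H.V₂ : ℝ))).congr (fun n => ?_)
  rw [log_tB H (G n) (p n) (p1 n) (p2 n)]
  ring

theorem hom_Gq_pos (H : BiGraph) (n : ℕ) : 0 < hom H (Gq n) := by
  obtain ⟨C, hC⟩ := pl_bound H
  have h1 := (hC _ _ (Gq_spec n)).2
  have h2 : 0 < (tt n ^ 3) ^ kap H := by
    have := tt_ge n
    positivity
  exact Nat.pos_of_mul_pos_left (lt_of_lt_of_le h2 h1)

theorem dom_H1 : Dom H1 Gq := by
  have h1 : Dom Gr Gq := dom_pl Gq Gr (fun n => tt n ^ 3) (fun n => tt n ^ 2) Gq_spec Gr_spec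
    (fun n => Nat.pow_le_pow_right (by have := tt_ge n; omega) (by omega))
  have h2 : Dom (fun n => isoG (tt n ^ 6 + tt n ^ 4 + tt n ^ 2)) Gq := by
    refine dom_iso Gq _ 3 (fun n => ?_)
    rw [(Gq_spec n).card2]
    have h := tt_ge n
    have h4 : tt n ^ 4 ≤ tt n ^ 6 := Nat.pow_le_pow_right (by omega) (by omega)
    have h2 : tt n ^ 2 ≤ tt n ^ 6 := Nat.pow_le_pow_right (by omega) (by omega)
    have e1 : (tt n ^ 3) ^ 2 = tt n ^ 6 := by rw [← pow_mul]
    rw [e1]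
    omega
  exact ((Dom.refl Gq).add h1).add h2

theorem hom_Gq_le (H : BiGraph) (n : ℕ) : hom H (Gq n) ≤ hom H (H1 n) :=
  (hom_add_ge H (Gq n) (Gr n)).trans (hom_add_ge H (addG (Gq n) (Gr n)) _)

theorem lim_hom_H1 (H : BiGraph) :
    Tendsto (fun n => Real.log (hom H (H1 n)) / Real.log (tt n)) atTop
      (𝓝 ((3 * kap H : ℕ) : ℝ)) := by
  obtain ⟨C, hC⟩ := pl_bound H
  obtain ⟨D, hD⟩ := dom_H1 H
  have e : ∀ n, (tt n ^ 3) ^ kap H = tt n ^ (3 * kap H) := fun n => by rw [← pow_mul]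
  refine log_lim (fun n => hom H (H1 n)) tt (3 * kap H) (D * C + C) tt_tendsto (fun n => ?_)
    (fun n => ?_)
  · have h1 := (hC _ _ (Gq_spec n)).1
    rw [e] at h1
    calc hom H (H1 n) ≤ D * hom H (Gq n) := hD n
      _ ≤ D * (C * tt n ^ (3 * kap H)) := Nat.mul_le_mul_left _ h1
      _ = (D * C) * tt n ^ (3 * kap H) := by ring
      _ ≤ _ := Nat.mul_le_mul_right _ (Nat.le_add_right _ _)
  · have h1 := (hC _ _ (Gq_spec n)).2
    rw [e] at h1
    calc tt n ^ (3 * kap H) ≤ C * hom H (Gq n) := h1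
      _ ≤ C * hom H (H1 n) := Nat.mul_le_mul_left _ (hom_Gq_le H n)
      _ ≤ _ := Nat.mul_le_mul_right _ (Nat.le_add_left _ _)

theorem pos_V1_H1 (n : ℕ) : 0 < Fintype.card (H1 n).V₁ := by rw [card_V1_H1]; omega
theorem pos_V1_H2 (n : ℕ) : 0 < Fintype.card (H2 n).V₁ := by rw [card_V1_H2]; omega
theorem pos_V2_H1 (n : ℕ) : 0 < Fintype.card (H1 n).V₂ := by rw [card_V2_H1]; omega
theorem pos_V2_H2 (n : ℕ) : 0 < Fintype.card (H2 n).V₂ := by rw [card_V2_H2]; exact pos_V2_H1 n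

theorem pos_hom_H1 (H : BiGraph) (n : ℕ) : 0 < hom H (H1 n) :=
  lt_of_lt_of_le (hom_Gq_pos H n) (hom_Gq_le H n)

theorem pos_hom_H2 (H : BiGraph) (n : ℕ) : 0 < hom H (H2 n) :=
  lt_of_lt_of_le (hom_Gq_pos H n) (hom_add_ge H (Gq n) _)

theorem lim_tB_H1 (H : BiGraph) :
    Tendsto (fun n => Real.log (tB H (H1 n)) / Real.log (tt n)) atTop (𝓝 (-3 * (rr H : ℝ))) := by
  have h := tB_lim H1 H _ lim_V1_H1 lim_V2_H1 pos_V1_H1 pos_V2_H1 (pos_hom_H1 H) (lim_hom_H1 H)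
  have e : ((3 * kap H : ℕ) : ℝ) - Fintype.card H.V₁ * 6 - Fintype.card H.V₂ * 6 =
      -3 * (rr H : ℝ) := by
    have h1 := kap_add H
    unfold nV at h1
    have h2 : (kap H : ℝ) + rr H = 2 * (Fintype.card H.V₁ + Fintype.card H.V₂) := by
      exact_mod_cast h1
    push_cast
    linarith
  rw [e] at h
  exact h

theorem log_tt_pos (n : ℕ) : 0 < Real.log (tt n) := by
  apply Real.log_pos
  have := tt_ge n
  exact_mod_cast (by omega : 1 < tt n)

theorem not_complete_H1 (n : ℕ) : ¬ IsComplete (H1 n) := by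
  intro h
  have h1 : 0 < tt n ^ 6 + tt n ^ 4 + tt n ^ 2 := by
    have := tt_ge n
    positivity
  have h2 : addE (addG (Gq n) (Gr n)) (isoG (tt n ^ 6 + tt n ^ 4 + tt n ^ 2))
      (Sum.inl (Sum.inr (p0 n))) (Sum.inr (⟨0, h1⟩ : Fin (tt n ^ 6 + tt n ^ 4 + tt n ^ 2))) :=
    h (Sum.inl (Sum.inr (p0 n))) (Sum.inr (⟨0, h1⟩ : Fin (tt n ^ 6 + tt n ^ 4 + tt n ^ 2)))
  exact h2

theorem not_complete_H2 (n : ℕ) : ¬ IsComplete (H2 n) := by
  intro h
  have h1 : 0 < Fintype.card (Gq n).V₂ := by rw [(Gq_spec n).card2]; omega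
  obtain ⟨y⟩ := Fintype.card_pos_iff.1 h1
  have h2 : addE (Gq n) (starG (Gr n).V₁ (ss n)) (Sum.inr (p0 n)) (Sum.inl y) :=
    h (Sum.inr (p0 n)) (Sum.inl y)
  exact h2

theorem quasi_H1 : QuasirandomLogLimit H1 := by
  intro H _
  have h1 := lim_tB_H1 H
  have h2 := lim_tB_H1 K2
  rw [rr_K2] at h2
  have h3 := h1.div h2 (by norm_num)
  have e : -3 * (rr H : ℝ) / (-3 * ((1 : ℕ) : ℝ)) = rr H := by
    push_cast
    ring
  rw [e] at h3
  refine h3.congr (fun n => ?_)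
  unfold hLog
  rw [if_neg (not_complete_H1 n), Pi.div_apply,
    div_div_div_cancel_right₀ (log_tt_pos n).ne']

theorem lim_hom_K2_H2 :
    Tendsto (fun n => Real.log (hom K2 (H2 n)) / Real.log (tt n)) atTop (𝓝 ((9 : ℕ) : ℝ)) := by
  obtain ⟨C, hC⟩ := pl_bound K2
  have hk : kap K2 = 3 := by
    have h1 := kap_add K2
    rw [rr_K2] at h1
    have h2 : nV K2 = 2 := by
      show Fintype.card Unit + Fintype.card Unit = 2
      simp
    omega
  have e : ∀ n, (tt n ^ 3) ^ kap K2 = tt n ^ 9 := fun n => by rw [hk, ← pow_mul]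
  refine log_lim (fun n => hom K2 (H2 n)) tt 9 (C + 6) tt_tendsto (fun n => ?_) (fun n => ?_)
  · have h1 := (hC _ _ (Gq_spec n)).1
    rw [e] at h1
    have h2 := hom_K2_add (Gq n) (starG (Gr n).V₁ (ss n))
    have h3 := hom_K2_star (Gr n).V₁ (ss n)
    rw [sum_ss] at h3
    have h := tt_ge n
    have b6 : tt n ^ 6 ≤ tt n ^ 9 := Nat.pow_le_pow_right (by omega) (by omega)
    have b4 : tt n ^ 4 ≤ tt n ^ 9 := Nat.pow_le_pow_right (by omega) (by omega)
    have b2 : tt n ^ 2 ≤ tt n ^ 9 := Nat.pow_le_pow_right (by omega) (by omega)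
    have b0 : 1 ≤ tt n ^ 9 := Nat.one_le_pow _ _ (by omega)
    have e3 : (tt n ^ 2 + 1) ^ 2 + ((tt n ^ 2) ^ 2 + tt n ^ 2) * tt n ^ 2 =
        tt n ^ 6 + 2 * tt n ^ 4 + 2 * tt n ^ 2 + 1 := by ring
    rw [e3] at h3
    show hom K2 (addG (Gq n) (starG (Gr n).V₁ (ss n))) ≤ _
    rw [add_mul]
    omega
  · have h1 := (hC _ _ (Gq_spec n)).2
    rw [e] at h1
    calc tt n ^ 9 ≤ C * hom K2 (Gq n) := h1
      _ ≤ C * hom K2 (H2 n) := Nat.mul_le_mul_left _ (hom_add_ge K2 (Gq n) _)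
      _ ≤ _ := Nat.mul_le_mul_right _ (Nat.le_add_right _ _)

theorem lim_tB_K2_H2 :
    Tendsto (fun n => Real.log (tB K2 (H2 n)) / Real.log (tt n)) atTop (𝓝 (-3)) := by
  have h := tB_lim H2 K2 _ lim_V1_H2 lim_V2_H2 pos_V1_H2 pos_V2_H2 (pos_hom_H2 K2) lim_hom_K2_H2
  have e : ((9 : ℕ) : ℝ) - Fintype.card K2.V₁ * 6 - Fintype.card K2.V₂ * 6 = -3 := by
    have h1 : Fintype.card K2.V₁ = 1 := Fintype.card_unit
    have h2 : Fintype.card K2.V₂ = 1 := Fintype.card_unit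
    rw [h1, h2]
    norm_num
  rw [e] at h
  exact h

theorem not_quasi_H2 : ¬ QuasirandomLogLimit H2 := by
  intro hq
  have h1 := hq (St 9) ⟨(), (0 : Fin 9), trivial⟩
  have h2 := h1.mul lim_tB_K2_H2
  have hK : ∀ᶠ n in atTop, Real.log (tB K2 (H2 n)) / Real.log (tt n) < 0 :=
    lim_tB_K2_H2.eventually_lt_const (by norm_num)
  have h3 : Tendsto (fun n => Real.log (tB (St 9) (H2 n)) / Real.log (tt n)) atTop
      (𝓝 ((rr (St 9) : ℝ) * (-3))) := by
    refine h2.congr' ?_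
    filter_upwards [hK] with n hn
    unfold hLog
    rw [if_neg (not_complete_H2 n)]
    have hL := (log_tt_pos n).ne'
    have hne : Real.log (tB K2 (H2 n)) ≠ 0 := by
      intro h0
      rw [h0, zero_div] at hn
      exact lt_irrefl _ hn
    field_simp
  have h4 : Tendsto (fun n => 36 - 1 * (Real.log (Fintype.card (H2 n).V₁) / Real.log (tt n)) -
      9 * (Real.log (Fintype.card (H2 n).V₂) / Real.log (tt n))) atTop
      (𝓝 (36 - 1 * 6 - 9 * 6)) :=
    (tendsto_const_nhds.sub (lim_V1_H2.const_mul 1)).sub (lim_V2_H2.const_mul 9)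
  have h5 : (36 - 1 * 6 - 9 * 6 : ℝ) ≤ (rr (St 9) : ℝ) * (-3) := by
    refine le_of_tendsto_of_tendsto' h4 h3 (fun n => ?_)
    have hL := log_tt_pos n
    rw [log_tB (St 9) (H2 n) (pos_hom_H2 _ n) (pos_V1_H2 n) (pos_V2_H2 n)]
    have e1 : Fintype.card (St 9).V₁ = 1 := Fintype.card_unit
    have e2 : Fintype.card (St 9).V₂ = 9 := Fintype.card_fin 9
    rw [e1, e2]
    have h6 : tt n ^ 36 ≤ hom (St 9) (H2 n) := by
      have h7 := hom_St_star 9 (Gr n).V₁ (ss n) (p0 n)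
      have h8 : ss n (p0 n) = (tt n ^ 2 + 1) ^ 2 := by
        unfold ss
        rw [if_pos rfl]
      rw [h8] at h7
      refine le_trans ?_ (h7.trans (hom_add_ge' (St 9) (Gq n) _))
      calc tt n ^ 36 = ((tt n ^ 2) ^ 2) ^ 9 := by rw [← pow_mul, ← pow_mul]
        _ ≤ ((tt n ^ 2 + 1) ^ 2) ^ 9 :=
            Nat.pow_le_pow_left (Nat.pow_le_pow_left (Nat.le_succ _) _) _
    have h9 : 36 * Real.log (tt n) ≤ Real.log (hom (St 9) (H2 n)) := by
      have h10 : (36 : ℝ) * Real.log (tt n) = Real.log (((tt n) ^ 36 : ℕ) : ℝ) := by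
        push_cast
        rw [Real.log_pow]
        norm_num
      rw [h10]
      apply Real.log_le_log
      · have := tt_ge n
        positivity
      · exact_mod_cast h6
    rw [sub_div, sub_div, mul_div_assoc, mul_div_assoc]
    have h11 : 36 ≤ Real.log (hom (St 9) (H2 n)) / Real.log (tt n) := by
      rw [le_div_iff₀ hL]
      exact h9
    push_cast
    linarith
  have h6 := rr_St 9
  have h7 : (9 : ℝ) ≤ rr (St 9) := by exact_mod_cast h6
  linarith

theorem hasEdge_Gq (n : ℕ) : HasEdge (Gq n) := by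
  have h := hom_Gq_pos K2 n
  unfold hom at h
  obtain ⟨⟨⟨f, hf⟩⟩, -⟩ := Nat.card_pos_iff.1 h
  exact ⟨f.1 (), f.2 (), hf () () trivial⟩

theorem main : ∃ H H' : ℕ → BiGraph, (∀ n, HasEdge (H n)) ∧ (∀ n, HasEdge (H' n)) ∧
    (∀ n, spec (H n) = spec (H' n)) ∧ QuasirandomLogLimit H ∧ ¬ QuasirandomLogLimit H' := by
  refine ⟨H1, H2, fun n => ?_, fun n => ?_, spec_H, quasi_H1, not_quasi_H2⟩
  · obtain ⟨x, y, h⟩ := hasEdge_Gq n
    exact ⟨Sum.inl (Sum.inl x), Sum.inl (Sum.inl y), h⟩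
  · obtain ⟨x, y, h⟩ := hasEdge_Gq n
    exact ⟨Sum.inl x, Sum.inl y, h⟩

end Pool.Agent.X330.QL
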